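import Mathlib

set_option autoImplicit false

namespace Pool.Agent.K6.H22.Blow

open Finset

/-- average of a real function on a finite type -/
noncomputable def av {α : Type*} [Fintype α] (f : α → ℝ) : ℝ := (∑ x, f x) / Fintype.card α

section
variable {α : Type*} [Fintype α] [Nonempty α]

omit [Nonempty α] in
theorem av_add (f g : α → ℝ) : av (fun x => f x + g x) = av f + av g := by
  unfold av; rw [Finset.sum_add_distrib, add_div]

theorem av_const (c : ℝ) : av (fun _ : α => c) = c := by
  unfold av
  rw [Finset.sum_const, Finset.card_univ, nsmul_eq_mul]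
  have : (Fintype.card α : ℝ) ≠ 0 := by exact_mod_cast Fintype.card_ne_zero
  field_simp

omit [Nonempty α] in
theorem av_mul (c : ℝ) (f : α → ℝ) : av (fun x => c * f x) = c * av f := by
  unfold av; rw [← Finset.mul_sum, mul_div_assoc]

omit [Nonempty α] in
theorem av_mono {f g : α → ℝ} (h : ∀ x, f x ≤ g x) : av f ≤ av g := by
  unfold av
  exact div_le_div_of_nonneg_right (Finset.sum_le_sum fun x _ => h x) (by positivity)

theorem av_sq_le {G : α → ℝ} (h : ∀ a b, |G a - G b| ≤ 1) :
    av (fun a => G a ^ 2) ≤ (av G) ^ 2 + 1 := by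
  obtain ⟨a0⟩ := ‹Nonempty α›
  have : Nonempty α := ⟨a0⟩
  have e : av (fun a => G a ^ 2) = av (fun a => (G a - G a0) ^ 2) + 2 * G a0 * av G - G a0 ^ 2 := by
    have : (fun a => G a ^ 2) = fun a => ((G a - G a0) ^ 2 + (2 * G a0) * G a) + (- G a0 ^ 2) := by
      funext a; ring
    rw [this, av_add, av_add, av_mul, av_const]; ring
  have h1 : av (fun a => (G a - G a0) ^ 2) ≤ 1 := by
    calc av (fun a => (G a - G a0) ^ 2) ≤ av (fun _ : α => (1 : ℝ)) := by
          apply av_mono
          intro x
          have := h x a0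
          rw [← sq_abs]
          have h0 := abs_nonneg (G x - G a0)
          nlinarith
      _ = 1 := av_const 1
  rw [e]
  nlinarith [sq_nonneg (av G - G a0)]

end

theorem av_cons {X : Type*} [Fintype X] [Nonempty X] {N : ℕ} (f : (Fin (N + 1) → X) → ℝ) :
    av f = av (fun a : X => av (fun y : Fin N → X => f (Fin.cons a y))) := by
  unfold av
  have h1 : ∑ x, f x = ∑ a : X, ∑ y : Fin N → X, f (Fin.cons a y) := by
    rw [← Fintype.sum_prod_type']
    exact (Fintype.sum_equiv (Fin.consEquiv (fun _ => X)) _ _ (fun _ => rfl)).symm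
  rw [h1, ← Finset.sum_div, div_div]
  congr 1
  simp only [Fintype.card_fun, Fintype.card_fin]
  push_cast
  ring

/-- Variance of a function that changes by at most one when one coordinate changes. -/
theorem var_le {X : Type*} [Fintype X] [Nonempty X] : ∀ (N : ℕ) (g : (Fin N → X) → ℝ),
    (∀ x y, (∃ i, ∀ j, j ≠ i → x j = y j) → |g x - g y| ≤ 1) →
    av (fun x => g x ^ 2) ≤ (av g) ^ 2 + N := by
  intro N
  induction N with
  | zero =>
    intro g _
    have hu : ∀ f : (Fin 0 → X) → ℝ, av f = f default := by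
      intro f
      unfold av
      simp
    rw [hu, hu]
    simp
  | succ N ih =>
    intro g hg
    rw [av_cons, av_cons g]
    have h1 : ∀ a : X, av (fun y : Fin N → X => g (Fin.cons a y) ^ 2)
        ≤ (av (fun y : Fin N → X => g (Fin.cons a y))) ^ 2 + N := by
      intro a
      apply ih
      rintro x y ⟨i, hi⟩
      apply hg
      refine ⟨i.succ, fun j hj => ?_⟩
      refine Fin.cases ?_ (fun k => ?_) j (motive := fun j => j ≠ i.succ →
        (Fin.cons a x : Fin (N + 1) → X) j = (Fin.cons a y : Fin (N + 1) → X) j) hj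
      · intro _; simp
      · intro hk
        simp only [Fin.cons_succ]
        exact hi k (fun h => hk (by rw [h]))
    have h2 : av (fun a : X => av (fun y : Fin N → X => g (Fin.cons a y) ^ 2))
        ≤ av (fun a : X => (av (fun y : Fin N → X => g (Fin.cons a y))) ^ 2 + N) := av_mono h1
    rw [av_add, av_const] at h2
    have h3 : av (fun a : X => (av (fun y : Fin N → X => g (Fin.cons a y))) ^ 2)
        ≤ (av (fun a : X => av (fun y : Fin N → X => g (Fin.cons a y)))) ^ 2 + 1 := by
      apply av_sq_le
      intro a b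
      rw [abs_le]
      have hab : ∀ y : Fin N → X, |g (Fin.cons a y) - g (Fin.cons b y)| ≤ 1 := by
        intro y
        apply hg
        refine ⟨0, fun j hj => ?_⟩
        obtain ⟨k, rfl⟩ := Fin.exists_succ_eq.mpr hj
        simp
      have k1 : av (fun y : Fin N → X => g (Fin.cons a y))
          ≤ av (fun y : Fin N → X => g (Fin.cons b y) + 1) := by
        apply av_mono
        intro y
        have := (abs_le.mp (hab y)).2
        linarith
      have k2 : av (fun y : Fin N → X => g (Fin.cons b y))
          ≤ av (fun y : Fin N → X => g (Fin.cons a y) + 1) := by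
        apply av_mono
        intro y
        have := (abs_le.mp (hab y)).1
        linarith
      rw [av_add, av_const] at k1 k2
      constructor <;> linarith
    push_cast
    linarith

/-- Blow-up: two dense subsets of `X ^ N` have points that differ in few coordinates. -/
theorem blowup {X : Type*} [Fintype X] [DecidableEq X] [Nonempty X] {N : ℕ} {lam eps : ℝ}
    (hlam : 0 < lam) (heps : 0 < eps) (hN : 2 < eps ^ 2 * lam ^ 3 * N)
    (A B : Finset (Fin N → X)) (hA : lam * Fintype.card (Fin N → X) ≤ A.card)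
    (hB : lam * Fintype.card (Fin N → X) ≤ B.card) :
    ∃ a ∈ A, ∃ b ∈ B, (hammingDist a b : ℝ) ≤ eps * N := by
  classical
  have hcard : (0 : ℝ) < Fintype.card (Fin N → X) := by exact_mod_cast Fintype.card_pos
  have hAne : A.Nonempty := by
    rw [← Finset.card_pos]
    have : (0 : ℝ) < A.card := lt_of_lt_of_le (by positivity) hA
    exact_mod_cast this
  by_contra hcon
  push Not at hcon
  -- distance to `A`
  obtain ⟨d, hd⟩ : ∃ d : (Fin N → X) → ℕ, d = fun x => A.inf' hAne (fun a => hammingDist a x) :=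
    ⟨_, rfl⟩
  have hd0 : ∀ a ∈ A, d a = 0 := by
    intro a ha
    rw [hd]
    have : A.inf' hAne (fun a' => hammingDist a' a) ≤ hammingDist a a := Finset.inf'_le _ ha
    rw [hammingDist_self] at this
    exact Nat.le_zero.mp this
  have hdB : ∀ b ∈ B, eps * N < (d b : ℝ) := by
    intro b hb
    obtain ⟨a, ha, he⟩ := Finset.exists_mem_eq_inf' hAne (fun a => hammingDist a b)
    rw [hd]
    simp only
    rw [he]
    exact hcon a ha b hb
  have hlip : ∀ x y : Fin N → X, (∃ i, ∀ j, j ≠ i → x j = y j) → |(d x : ℝ) - d y| ≤ 1 := by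
    have key : ∀ x y : Fin N → X, (∃ i, ∀ j, j ≠ i → x j = y j) → d x ≤ d y + 1 := by
      rintro x y ⟨i, hi⟩
      obtain ⟨a, ha, he⟩ := Finset.exists_mem_eq_inf' hAne (fun a => hammingDist a y)
      have h1 : d x ≤ hammingDist a x := by rw [hd]; exact Finset.inf'_le _ ha
      have h2 : d y = hammingDist a y := by rw [hd]; exact he
      have h3 : hammingDist a x ≤ hammingDist a y + hammingDist y x := hammingDist_triangle _ _ _
      have h4 : hammingDist y x ≤ 1 := by
        unfold hammingDist
        calc _ ≤ ({i} : Finset (Fin N)).card := by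
              apply Finset.card_le_card
              intro j hj
              simp only [Finset.mem_filter, Finset.mem_univ, true_and] at hj
              rw [Finset.mem_singleton]
              by_contra hji
              exact hj (hi j hji).symm
          _ = 1 := Finset.card_singleton i
      omega
    rintro x y ⟨i, hi⟩
    have h1 := key x y ⟨i, hi⟩
    have h2 := key y x ⟨i, fun j hj => (hi j hj).symm⟩
    have h1' : (d x : ℝ) ≤ d y + 1 := by exact_mod_cast h1
    have h2' : (d y : ℝ) ≤ d x + 1 := by exact_mod_cast h2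
    rw [abs_le]; constructor <;> linarith
  have hv := var_le N (fun x => (d x : ℝ)) hlip
  -- the mean
  obtain ⟨μ, hμ⟩ : ∃ μ, μ = av (fun x : Fin N → X => (d x : ℝ)) := ⟨_, rfl⟩
  rw [← hμ] at hv
  have hμB : lam * (eps * N) ≤ μ := by
    rw [hμ]
    unfold av
    rw [le_div_iff₀ hcard]
    have h1 : ∑ b ∈ B, (eps * N : ℝ) ≤ ∑ x, (d x : ℝ) := by
      calc ∑ b ∈ B, (eps * N : ℝ) ≤ ∑ b ∈ B, (d b : ℝ) :=
            Finset.sum_le_sum fun b hb => (hdB b hb).le
        _ ≤ ∑ x, (d x : ℝ) :=
            Finset.sum_le_sum_of_subset_of_nonneg (Finset.subset_univ _) (fun _ _ _ => by positivity)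
    rw [Finset.sum_const, nsmul_eq_mul] at h1
    have h2 : lam * Fintype.card (Fin N → X) * (eps * N) ≤ B.card * (eps * N : ℝ) :=
      mul_le_mul_of_nonneg_right hB (by positivity)
    linarith
  have hμA : lam * μ ^ 2 ≤ N := by
    have h1 : av (fun x : Fin N → X => ((d x : ℝ) - μ) ^ 2) ≤ N := by
      have : (fun x : Fin N → X => ((d x : ℝ) - μ) ^ 2)
          = fun x => ((d x : ℝ) ^ 2 + (-(2 * μ)) * (d x : ℝ)) + μ ^ 2 := by funext x; ring
      rw [this, av_add, av_add, av_mul, av_const, ← hμ]
      linarith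
    refine le_trans ?_ h1
    unfold av
    rw [le_div_iff₀ hcard]
    have h2 : ∑ a ∈ A, (μ ^ 2 : ℝ) ≤ ∑ x, ((d x : ℝ) - μ) ^ 2 := by
      calc ∑ a ∈ A, (μ ^ 2 : ℝ) = ∑ a ∈ A, ((d a : ℝ) - μ) ^ 2 := by
            apply Finset.sum_congr rfl
            intro a ha
            rw [hd0 a ha]; push_cast; ring
        _ ≤ ∑ x, ((d x : ℝ) - μ) ^ 2 :=
            Finset.sum_le_sum_of_subset_of_nonneg (Finset.subset_univ _) (fun _ _ _ => by positivity)
    rw [Finset.sum_const, nsmul_eq_mul] at h2
    have h3 : lam * Fintype.card (Fin N → X) * μ ^ 2 ≤ A.card * (μ ^ 2 : ℝ) :=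
      mul_le_mul_of_nonneg_right hA (by positivity)
    linarith
  have hN0 : (0 : ℝ) < N := by
    by_contra h
    rw [not_lt] at h
    have : eps ^ 2 * lam ^ 3 * N ≤ 0 := mul_nonpos_of_nonneg_of_nonpos (by positivity) h
    linarith
  have h5 : (lam * (eps * N)) ^ 2 ≤ μ ^ 2 := by
    apply pow_le_pow_left₀ (by positivity) hμB
  have h6 : lam * (lam * (eps * N)) ^ 2 ≤ N := le_trans (mul_le_mul_of_nonneg_left h5 hlam.le) hμA
  have h7 : (eps ^ 2 * lam ^ 3 * N) * N ≤ 1 * N := by linarith
  have h8 := le_of_mul_le_mul_right h7 hN0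
  linarith

end Pool.Agent.K6.H22.Blow
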