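import Mathlib
import Pool.Agent.K6.H22.Blow

set_option autoImplicit false

namespace Pool.Agent.K6.H22.BadTri

open Finset Pool.Agent.K6.H22.Blow

/-- The Hilbert space `ℓ²`. -/
abbrev H : Type := lp (fun _ : ℕ => ℝ) 2

/-- Two of the three distances are at most `1` and the remaining one is at least `1 + δ`. -/
def BadTriangle (δ : ℝ) (x y z : H) : Prop :=
  (dist x y ≤ 1 ∧ dist y z ≤ 1 ∧ 1 + δ ≤ dist x z) ∨
  (dist x y ≤ 1 ∧ dist x z ≤ 1 ∧ 1 + δ ≤ dist y z) ∨
  (dist y z ≤ 1 ∧ dist x z ≤ 1 ∧ 1 + δ ≤ dist x y)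

/-- Property `P(δ)`. -/
def PropertyP (δ : ℝ) : Prop :=
  ∃ lam : ℝ, 0 < lam ∧ ∀ n : ℕ, 1 ≤ n → ∀ x : Fin n → H, ∃ I : Finset (Fin n),
    lam * n ≤ I.card ∧
    ∀ i ∈ I, ∀ j ∈ I, ∀ k ∈ I, i ≠ j → j ≠ k → i ≠ k → ¬ BadTriangle δ (x i) (x j) (x k)

/-- Every finite-dimensional real inner product space embeds isometrically into `ℓ²`. -/
theorem exists_isometry (V : Type*) [NormedAddCommGroup V] [InnerProductSpace ℝ V]
    [FiniteDimensional ℝ V] : Nonempty (V →ₗᵢ[ℝ] H) := by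
  classical
  let hb : HilbertBasis ℕ ℝ H := HilbertBasis.ofRepr (LinearIsometryEquiv.refl ℝ H)
  let b := stdOrthonormalBasis ℝ V
  let v : Fin (Module.finrank ℝ V) → H := fun i => hb (i : ℕ)
  have hv : Orthonormal ℝ v := hb.orthonormal.comp _ Fin.val_injective
  refine ⟨(b.toBasis.constr ℝ v).isometryOfOrthonormal (v := b.toBasis) ?_ ?_⟩
  · rw [OrthonormalBasis.coe_toBasis]; exact b.orthonormal
  · have : (b.toBasis.constr ℝ v) ∘ b.toBasis = v := by
      funext i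
      simp only [Function.comp]
      rw [Module.Basis.constr_basis]
    rw [this]; exact hv

/-- Three points of a Hilbert space with two distances `≤ 1` and the third `≥ 2`. -/
theorem mid {x y z : H} (h1 : dist x y ≤ 1) (h2 : dist y z ≤ 1) (h3 : 2 ≤ dist x z) :
    ‖x‖ ^ 2 + ‖z‖ ^ 2 - 2 * ‖y‖ ^ 2 = 2 := by
  have t := dist_triangle x y z
  have e1 : dist x y = 1 := by linarith
  have e2 : dist y z = 1 := by linarith
  have e3 : dist x z = 2 := by linarith
  rw [dist_eq_norm] at e1 e2 e3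
  have p := parallelogram_law_with_norm ℝ (x - y) (z - y)
  have p1 : (x - y) - (z - y) = x - z := by abel
  rw [p1, e3, e1] at p
  have e2' : ‖z - y‖ = 1 := by rw [norm_sub_rev]; exact e2
  rw [e2'] at p
  have p2 : ‖(x - y) + (z - y)‖ = 0 := by nlinarith [norm_nonneg ((x - y) + (z - y))]
  rw [norm_eq_zero] at p2
  have hz : z = y - (x - y) := by
    have : z - y = -(x - y) := by
      rw [eq_neg_iff_add_eq_zero, add_comm]; exact p2
    calc z = (z - y) + y := by abel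
      _ = y - (x - y) := by rw [this]; abel
  have hx : x = y + (x - y) := by abel
  have q := parallelogram_law_with_norm ℝ y (x - y)
  rw [← hz, ← hx, e1] at q
  nlinarith

/-- `P(δ)` holds for `δ ≥ 1`, with `λ = 1/4`. -/
theorem holds {δ : ℝ} (hδ : 1 ≤ δ) : PropertyP δ := by
  refine ⟨1 / 4, by norm_num, fun n hn x => ?_⟩
  let f : Fin n → ℤ := fun i => ⌊‖x i‖ ^ 2⌋ % 4
  obtain ⟨k, hk, hcard⟩ := Finset.exists_le_card_fiber_of_nsmul_le_card_of_maps_to
    (s := (Finset.univ : Finset (Fin n))) (t := Finset.Ico (0 : ℤ) 4) (f := f) (b := (1 / 4 * n : ℝ))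
    (by
      intro i _
      rw [Finset.mem_Ico]
      exact ⟨Int.emod_nonneg _ (by norm_num), Int.emod_lt_of_pos _ (by norm_num)⟩)
    (by simp)
    (by
      simp only [Int.card_Ico, Finset.card_univ, Fintype.card_fin, nsmul_eq_mul]
      have : ((4 : ℤ) - 0).toNat = 4 := rfl
      rw [this]; push_cast; linarith)
  refine ⟨_, hcard, ?_⟩
  -- the main point
  have key : ∀ a b c : Fin n, f a = k → f b = k → f c = k →
      ¬ (dist (x a) (x b) ≤ 1 ∧ dist (x b) (x c) ≤ 1 ∧ 1 + δ ≤ dist (x a) (x c)) := by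
    rintro a b c ha hb hc ⟨h1, h2, h3⟩
    have hm := mid h1 h2 (by linarith)
    have fl : ∀ i : Fin n, f i = k → ∃ m : ℤ, (4 * m + k : ℝ) ≤ ‖x i‖ ^ 2 ∧
        ‖x i‖ ^ 2 < 4 * m + k + 1 := by
      intro i hi
      refine ⟨⌊‖x i‖ ^ 2⌋ / 4, ?_, ?_⟩
      · have h := Int.emod_add_mul_ediv ⌊‖x i‖ ^ 2⌋ 4
        have h' : (⌊‖x i‖ ^ 2⌋ : ℤ) = 4 * (⌊‖x i‖ ^ 2⌋ / 4) + k := by
          change ⌊‖x i‖ ^ 2⌋ % 4 = k at hi
          omega
        have h0 := Int.floor_le (‖x i‖ ^ 2)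
        have : ((⌊‖x i‖ ^ 2⌋ : ℤ) : ℝ) = 4 * ((⌊‖x i‖ ^ 2⌋ / 4 : ℤ) : ℝ) + k := by
          exact_mod_cast h'
        linarith
      · have h := Int.emod_add_mul_ediv ⌊‖x i‖ ^ 2⌋ 4
        have h' : (⌊‖x i‖ ^ 2⌋ : ℤ) = 4 * (⌊‖x i‖ ^ 2⌋ / 4) + k := by
          change ⌊‖x i‖ ^ 2⌋ % 4 = k at hi
          omega
        have h0 := Int.lt_floor_add_one (‖x i‖ ^ 2)
        have : ((⌊‖x i‖ ^ 2⌋ : ℤ) : ℝ) = 4 * ((⌊‖x i‖ ^ 2⌋ / 4 : ℤ) : ℝ) + k := by
          exact_mod_cast h'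
        linarith
    obtain ⟨ma, a1, a2⟩ := fl a ha
    obtain ⟨mb, b1, b2⟩ := fl b hb
    obtain ⟨mc, c1, c2⟩ := fl c hc
    have g1 : (0 : ℝ) < 4 * ((ma + mc - 2 * mb : ℤ) : ℝ) := by push_cast; linarith
    have g2 : 4 * ((ma + mc - 2 * mb : ℤ) : ℝ) < 4 := by push_cast; linarith
    have g3 : (0 : ℤ) < ma + mc - 2 * mb := by
      have : (0 : ℝ) < ((ma + mc - 2 * mb : ℤ) : ℝ) := by linarith
      exact_mod_cast this
    have g4 : ma + mc - 2 * mb < (1 : ℤ) := by
      have : ((ma + mc - 2 * mb : ℤ) : ℝ) < 1 := by linarith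
      exact_mod_cast this
    omega
  intro i hi j hj l hl _ _ _
  simp only [Finset.mem_filter, Finset.mem_univ, true_and] at hi hj hl
  rintro (⟨h1, h2, h3⟩ | ⟨h1, h2, h3⟩ | ⟨h1, h2, h3⟩)
  · exact key i j l hi hj hl ⟨h1, h2, h3⟩
  · exact key j i l hj hi hl ⟨by rw [dist_comm]; exact h1, h2, h3⟩
  · exact key i l j hi hl hj ⟨h2, by rw [dist_comm]; exact h1, h3⟩

/-- The vertices of a regular polygon: consecutive vertices nearly as far apart as possible. -/
theorem exists_q {δ : ℝ} (hδ : δ < 1) (hδ0 : 0 < δ) : ∃ q : ℕ, 2 ≤ q ∧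
    (1 + δ) ^ 2 < ‖Complex.exp (2 * Real.pi * Complex.I * (1 : ℤ) / q) + 1‖ ^ 2 := by
  have h1 : Filter.Tendsto (fun q : ℕ =>
      ‖Complex.exp (2 * Real.pi * Complex.I * (1 : ℤ) / q) + 1‖ ^ 2) Filter.atTop
      (nhds (‖Complex.exp 0 + 1‖ ^ 2)) := by
    apply Filter.Tendsto.pow
    apply Filter.Tendsto.norm
    apply Filter.Tendsto.add_const
    apply (Complex.continuous_exp.tendsto 0).comp
    exact tendsto_const_div_atTop_nhds_zero_nat _
  have h2 : (1 + δ) ^ 2 < ‖Complex.exp 0 + 1‖ ^ 2 := by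
    rw [Complex.exp_zero]
    have : (1 : ℂ) + 1 = 2 := by norm_num
    rw [this, Complex.norm_ofNat]
    nlinarith
  obtain ⟨q, hq, hq2⟩ := ((h1.eventually (lt_mem_nhds h2)).and (Filter.eventually_ge_atTop 2)).exists
  exact ⟨q, hq2, hq⟩

theorem chord {a b : ℂ} (ha : ‖a‖ = 1) (hb : ‖b‖ = 1) : ‖a - b‖ ^ 2 ≤ 4 := by
  have := norm_sub_le a b
  rw [ha, hb] at this
  nlinarith [norm_nonneg (a - b)]

/-- `P(δ)` fails for `δ < 1`. -/
theorem fails {δ : ℝ} (hδ0 : 0 < δ) (hδ : δ < 1) : ¬ PropertyP δ := by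
  classical
  rintro ⟨lam, hlam, hP⟩
  obtain ⟨q, hq2, hq⟩ := exists_q hδ hδ0
  have : NeZero q := ⟨by omega⟩
  have : Fact (1 < q) := ⟨by omega⟩
  -- the character
  obtain ⟨e, he1, hen, hea, hene⟩ : ∃ e : ZMod q → ℂ,
      e 1 = Complex.exp (2 * Real.pi * Complex.I * (1 : ℤ) / q) ∧ (∀ k, ‖e k‖ = 1) ∧
      (∀ k l, e (k + l) = e k * e l) ∧ e 1 ≠ 1 := by
    refine ⟨fun k => ZMod.stdAddChar k, ?_, ?_, ?_, ?_⟩
    · have := ZMod.stdAddChar_coe (N := q) (1 : ℤ)
      rw [Int.cast_one] at this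
      exact this
    · intro k
      exact AddChar.norm_apply _ _
    · intro k l
      exact AddChar.map_add_eq_mul _ _ _
    · intro h
      have h1 : ZMod.stdAddChar (1 : ZMod q) = ZMod.stdAddChar (0 : ZMod q) := by
        rw [AddChar.map_zero_eq_one]; exact h
      have := ZMod.injective_stdAddChar h1
      exact one_ne_zero this
  rw [← he1] at hq
  obtain ⟨w, hw⟩ : ∃ w, w = e 1 := ⟨_, rfl⟩
  rw [← hw] at hq hene
  have hwn : ‖w‖ = 1 := by rw [hw]; exact hen 1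
  obtain ⟨s, hs⟩ : ∃ s, s = ‖w - 1‖ ^ 2 := ⟨_, rfl⟩
  have hs0 : 0 < s := by
    rw [hs]
    have : 0 < ‖w - 1‖ := norm_pos_iff.mpr (sub_ne_zero.mpr hene)
    positivity
  have hs4 : s ≤ 4 := by rw [hs]; exact chord hwn norm_one
  obtain ⟨t, ht⟩ : ∃ t, t = ‖w + 1‖ ^ 2 := ⟨_, rfl⟩
  rw [← ht] at hq
  have ht4 : t ≤ 4 := by
    have h := norm_add_le w 1
    rw [hwn, norm_one] at h
    rw [ht]
    nlinarith [norm_nonneg (w + 1)]
  have ht0 : 0 < t := lt_trans (by positivity) hq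
  -- small ε
  obtain ⟨eps, heps⟩ : ∃ eps, eps = (s * t - (1 + δ) ^ 2 * s) / 48 := ⟨_, rfl⟩
  have heps0 : 0 < eps := by
    rw [heps]
    have : 0 < s * (t - (1 + δ) ^ 2) := mul_pos hs0 (by linarith)
    linarith
  have hmain : (1 + δ) ^ 2 * (s + 4 * eps) ≤ (1 - 2 * eps) * (s * t) := by
    have hδ4 : (1 + δ) ^ 2 ≤ 4 := by nlinarith
    have h1 : s * t ≤ 16 := by nlinarith
    have h2 : (1 + δ) ^ 2 * eps ≤ 4 * eps := mul_le_mul_of_nonneg_right hδ4 heps0.le
    have h3 : eps * (s * t) ≤ eps * 16 := mul_le_mul_of_nonneg_left h1 heps0.le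
    have h4 : 48 * eps = s * t - (1 + δ) ^ 2 * s := by rw [heps]; ring
    nlinarith
  -- large N
  obtain ⟨N, hN⟩ := exists_nat_gt (2 / (eps ^ 2 * (lam / 3) ^ 3))
  have hN2 : 2 < eps ^ 2 * (lam / 3) ^ 3 * N := by
    rw [div_lt_iff₀ (by positivity)] at hN
    linarith
  have hN0 : (0 : ℝ) < N := by
    by_contra h
    rw [not_lt] at h
    have : eps ^ 2 * (lam / 3) ^ 3 * N ≤ 0 := mul_nonpos_of_nonneg_of_nonpos (by positivity) h
    linarith
  -- the points
  obtain ⟨Ψ⟩ := exists_isometry (PiLp 2 (fun _ : Fin N => ℂ))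
  obtain ⟨D, hD⟩ : ∃ D, D = Real.sqrt (N * (s + 4 * eps)) := ⟨_, rfl⟩
  have hD2 : D ^ 2 = N * (s + 4 * eps) := by rw [hD]; exact Real.sq_sqrt (by positivity)
  have hD0 : 0 < D := by rw [hD]; exact Real.sqrt_pos.mpr (by positivity)
  let φ : (Fin N → ZMod q) → H := fun y => Ψ ((D⁻¹ : ℝ) • WithLp.toLp 2 (fun j => e (y j)))
  have hφ : ∀ y z, dist (φ y) (φ z) ^ 2 = (∑ j, ‖e (y j) - e (z j)‖ ^ 2) / D ^ 2 := by
    intro y z
    change dist (Ψ _) (Ψ _) ^ 2 = _
    rw [Ψ.dist_map, dist_smul₀, Real.norm_eq_abs, abs_of_pos (inv_pos.mpr hD0), mul_pow,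
      PiLp.dist_eq_of_L2, Real.sq_sqrt (Finset.sum_nonneg fun _ _ => by positivity)]
    simp only [dist_eq_norm]
    rw [inv_pow, div_eq_inv_mul]
  let n := Fintype.card (Fin N → ZMod q)
  let E : Fin n ≃ (Fin N → ZMod q) := (Fintype.equivFin (Fin N → ZMod q)).symm
  have hn1 : 1 ≤ n := Fintype.card_pos
  obtain ⟨I, hI, hbad⟩ := hP n hn1 (fun i => φ (E i))
  let A : Finset (Fin N → ZMod q) := I.map E.toEmbedding
  have hA : lam * Fintype.card (Fin N → ZMod q) ≤ A.card := by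
    rw [Finset.card_map]; exact hI
  have hcard : (0 : ℝ) < Fintype.card (Fin N → ZMod q) := by exact_mod_cast hn1
  -- points far from `A`
  let B : Finset (Fin N → ZMod q) := {x | ∀ a ∈ A, eps * N < (hammingDist a x : ℝ)}
  have hB : (B.card : ℝ) < lam / 3 * Fintype.card (Fin N → ZMod q) := by
    by_contra h
    rw [not_lt] at h
    obtain ⟨a, ha, b, hb, hab⟩ := blowup (X := ZMod q) (lam := lam / 3) (by positivity) heps0 hN2 A B
      (le_trans (by nlinarith) hA) h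
    simp only [B, Finset.mem_filter, Finset.mem_univ, true_and] at hb
    exact absurd hab (not_le.mpr (hb a ha))
  -- choose `y`
  obtain ⟨y, hyA, hy1, hy2⟩ : ∃ y ∈ A, y - 1 ∉ B ∧ y + 1 ∉ B := by
    by_contra hcon
    push Not at hcon
    have hsub : A ⊆ B.map (Equiv.addRight (1 : Fin N → ZMod q)).toEmbedding
        ∪ B.map (Equiv.subRight (1 : Fin N → ZMod q)).toEmbedding := by
      intro y hy
      rw [Finset.mem_union]
      by_cases h : y - 1 ∈ B
      · left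
        rw [Finset.mem_map]
        exact ⟨y - 1, h, by simp⟩
      · right
        rw [Finset.mem_map]
        exact ⟨y + 1, hcon y hy h, by simp⟩
    have h1 := Finset.card_le_card hsub
    have h2 := Finset.card_union_le (B.map (Equiv.addRight (1 : Fin N → ZMod q)).toEmbedding)
      (B.map (Equiv.subRight (1 : Fin N → ZMod q)).toEmbedding)
    rw [Finset.card_map, Finset.card_map] at h2
    have h3 : (A.card : ℝ) ≤ B.card + B.card := by exact_mod_cast le_trans h1 h2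
    nlinarith
  obtain ⟨x, hxA, hx⟩ : ∃ x ∈ A, (hammingDist x (y - 1) : ℝ) ≤ eps * N := by
    by_contra hcon
    push Not at hcon
    exact hy1 (by simp only [B, Finset.mem_filter, Finset.mem_univ, true_and]; exact hcon)
  obtain ⟨z, hzA, hz⟩ : ∃ z ∈ A, (hammingDist z (y + 1) : ℝ) ≤ eps * N := by
    by_contra hcon
    push Not at hcon
    exact hy2 (by simp only [B, Finset.mem_filter, Finset.mem_univ, true_and]; exact hcon)
  -- Hamming distances as sums
  have hham : ∀ u v : Fin N → ZMod q, (hammingDist u v : ℝ) = ∑ j, (if u j ≠ v j then (1 : ℝ) else 0) := by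
    intro u v
    unfold hammingDist
    rw [Finset.sum_ite, Finset.sum_const_zero, add_zero, Finset.sum_const, nsmul_eq_mul, mul_one]
  -- steps
  have estep : ∀ k : ZMod q, ‖e (k + 1) - e k‖ ^ 2 = s := by
    intro k
    rw [hea, ← hw, hs]
    have : e k * w - e k = e k * (w - 1) := by ring
    rw [this, norm_mul, hen k, one_mul]
  have estep2 : ∀ k : ZMod q, ‖e (k - 1) - e (k + 1)‖ ^ 2 = s * t := by
    intro k
    have h1 : e (k + 1) = e (k - 1) * (w * w) := by
      have : k + 1 = (k - 1) + (1 + 1) := by ring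
      rw [this, hea, hea, ← hw]
    rw [h1]
    have : e (k - 1) - e (k - 1) * (w * w) = -(e (k - 1) * ((w - 1) * (w + 1))) := by ring
    rw [this, norm_neg, norm_mul, norm_mul, hen, one_mul, mul_pow, hs, ht]
  have hupper : ∀ u v : Fin N → ZMod q, (∀ j, ‖e (v j) - e (y j)‖ ^ 2 = s) →
      (hammingDist u v : ℝ) ≤ eps * N → ∑ j, ‖e (u j) - e (y j)‖ ^ 2 ≤ D ^ 2 := by
    intro u v hv huv
    have h1 : ∀ j, ‖e (u j) - e (y j)‖ ^ 2 ≤ s + 4 * (if u j ≠ v j then (1 : ℝ) else 0) := by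
      intro j
      by_cases h : u j = v j
      · rw [h, hv j]; simp
      · rw [if_pos h]
        have := chord (hen (u j)) (hen (y j))
        linarith
    calc ∑ j, ‖e (u j) - e (y j)‖ ^ 2 ≤ ∑ j, (s + 4 * (if u j ≠ v j then (1 : ℝ) else 0)) :=
          Finset.sum_le_sum fun j _ => h1 j
      _ = N * s + 4 * (hammingDist u v : ℝ) := by
          rw [Finset.sum_add_distrib, ← Finset.mul_sum, ← hham, Finset.sum_const, Finset.card_univ,
            Fintype.card_fin, nsmul_eq_mul]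
      _ ≤ D ^ 2 := by rw [hD2]; linarith
  have d1 : dist (φ x) (φ y) ≤ 1 := by
    have h := hupper x (y - 1) (fun j => by
      have := estep (y j - 1)
      rw [sub_add_cancel] at this
      rw [norm_sub_rev]
      exact this) hx
    have h2 : dist (φ x) (φ y) ^ 2 ≤ 1 := by
      rw [hφ, div_le_one (by positivity)]; exact h
    nlinarith [dist_nonneg (x := φ x) (y := φ y)]
  have d2 : dist (φ z) (φ y) ≤ 1 := by
    have h := hupper z (y + 1) (fun j => estep (y j)) hz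
    have h2 : dist (φ z) (φ y) ^ 2 ≤ 1 := by
      rw [hφ, div_le_one (by positivity)]; exact h
    nlinarith [dist_nonneg (x := φ z) (y := φ y)]
  have d3 : 1 + δ ≤ dist (φ x) (φ z) := by
    have h1 : ∀ j, s * t * (1 - (if x j ≠ (y - 1) j then (1 : ℝ) else 0)
        - (if z j ≠ (y + 1) j then (1 : ℝ) else 0)) ≤ ‖e (x j) - e (z j)‖ ^ 2 := by
      intro j
      by_cases hxj : x j = (y - 1) j
      · by_cases hzj : z j = (y + 1) j
        · rw [if_neg (not_not.mpr hxj), if_neg (not_not.mpr hzj), hxj, hzj]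
          have := estep2 (y j)
          simp only [Pi.sub_apply, Pi.add_apply, Pi.one_apply]
          rw [this]; linarith
        · rw [if_neg (not_not.mpr hxj), if_pos hzj]
          have : s * t * (1 - 0 - 1) = 0 := by ring
          rw [this]; positivity
      · rw [if_pos hxj]
        have h0 : (1 : ℝ) - 1 - (if z j ≠ (y + 1) j then (1 : ℝ) else 0) ≤ 0 := by
          split_ifs <;> norm_num
        have : s * t * (1 - 1 - (if z j ≠ (y + 1) j then (1 : ℝ) else 0)) ≤ 0 :=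
          mul_nonpos_of_nonneg_of_nonpos (by positivity) h0
        exact le_trans this (by positivity)
    have h2 : s * t * (N - (hammingDist x (y - 1) : ℝ) - (hammingDist z (y + 1) : ℝ))
        ≤ ∑ j, ‖e (x j) - e (z j)‖ ^ 2 := by
      calc _ = ∑ j, s * t * (1 - (if x j ≠ (y - 1) j then (1 : ℝ) else 0)
        - (if z j ≠ (y + 1) j then (1 : ℝ) else 0)) := by
            rw [← Finset.mul_sum, Finset.sum_sub_distrib, Finset.sum_sub_distrib, ← hham, ← hham,
              Finset.sum_const, Finset.card_univ, Fintype.card_fin, nsmul_eq_mul, mul_one]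
        _ ≤ _ := Finset.sum_le_sum fun j _ => h1 j
    have h3 : (1 + δ) ^ 2 ≤ dist (φ x) (φ z) ^ 2 := by
      rw [hφ, le_div_iff₀ (by positivity), hD2]
      refine le_trans ?_ h2
      have h4 : s * t * (N * (1 - 2 * eps)) ≤ s * t * (N - (hammingDist x (y - 1) : ℝ)
          - (hammingDist z (y + 1) : ℝ)) := by
        apply mul_le_mul_of_nonneg_left _ (by positivity)
        linarith
      refine le_trans ?_ h4
      have := mul_le_mul_of_nonneg_left hmain hN0.le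
      linarith
    exact (pow_le_pow_iff_left₀ (by positivity) dist_nonneg two_ne_zero).mp h3
  -- indices
  obtain ⟨ix, hix, rfl⟩ := Finset.mem_map.mp hxA
  obtain ⟨iy, hiy, rfl⟩ := Finset.mem_map.mp hyA
  obtain ⟨iz, hiz, rfl⟩ := Finset.mem_map.mp hzA
  have n1 : ix ≠ iz := by
    rintro rfl
    rw [dist_self] at d3; linarith
  have n2 : ix ≠ iy := by
    rintro rfl
    rw [dist_comm] at d3; linarith
  have n3 : iy ≠ iz := by
    rintro rfl
    linarith
  refine hbad ix hix iy hiy iz hiz n2 n3 n1 (Or.inl ⟨d1, ?_, d3⟩)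
  rw [dist_comm]; exact d2

end Pool.Agent.K6.H22.BadTri
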