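import Mathlib

/-!
Linear algebra for the three-dimensional pentagram map. A polygon is a sequence of vectors; one
step of the map is `b i = β a(i-1) + δ a(i+1) = -(α a(i-2) + γ a(i) + ε a(i+2))`.
-/

set_option autoImplicit false

namespace Pool.Agent.K6.H22.Devron

variable {K V : Type*} [Field K] [AddCommGroup V] [Module K V]

/-- One step of the map, with all the coefficients of the relation between five consecutive
vertices. -/
structure Stp (K : Type*) {V : Type*} [Field K] [AddCommGroup V] [Module K V] (a b : ℤ → V) where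
  β : ℤ → K
  δ : ℤ → K
  α : ℤ → K
  γ : ℤ → K
  ε : ℤ → K
  hD : ∀ i, b i = β i • a (i - 1) + δ i • a (i + 1)
  hE : ∀ i, b i = -(α i • a (i - 2) + γ i • a i + ε i • a (i + 2))
  hb : ∀ i, b i ≠ 0
  ind2 : ∀ i (x y : K), x • a (i - 1) + y • a (i + 1) = 0 → x = 0 ∧ y = 0
  ind3 : ∀ i (x y z : K), x • a (i - 2) + y • a i + z • a (i + 2) = 0 → x = 0 ∧ y = 0 ∧ z = 0
  uniq : ∀ i (x y u v w : K), x • a (i - 1) + y • a (i + 1) +
    (u • a (i - 2) + v • a i + w • a (i + 2)) = 0 →
    ∃ t, x = t * β i ∧ y = t * δ i ∧ u = t * α i ∧ v = t * γ i ∧ w = t * ε i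

namespace Stp

variable {a b c : ℤ → V}

/-- the part of the relation with the odd shifts -/
def Do (S : Stp K a b) (h : ℤ → K) : ℤ → K := fun i => S.β i * h (i - 1) + S.δ i * h (i + 1)

/-- the part of the relation with the even shifts -/
def De (S : Stp K a b) (h : ℤ → K) : ℤ → K :=
  fun i => S.α i * h (i - 2) + S.γ i * h i + S.ε i * h (i + 2)

/-- two points of the line in the plane: impossible -/
theorem not_both (S : Stp K a b) (i : ℤ) {u v w u' v' w' : K}
    (h1 : a (i - 1) = u • a (i - 2) + v • a i + w • a (i + 2))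
    (h2 : a (i + 1) = u' • a (i - 2) + v' • a i + w' • a (i + 2)) : False := by
  obtain ⟨t, ht1, ht2, -⟩ := S.uniq i 1 0 (-u) (-v) (-w) (by rw [h1]; module)
  obtain ⟨s, hs1, hs2, -⟩ := S.uniq i 0 1 (-u') (-v') (-w') (by rw [h2]; module)
  have ht : t ≠ 0 := by rintro rfl; simp at ht1
  have hs : s ≠ 0 := by rintro rfl; simp at hs2
  have hδ : S.δ i = 0 := by
    rcases mul_eq_zero.mp ht2.symm with h | h
    · exact absurd h ht
    · exact h
  rw [hδ, mul_zero] at hs2
  exact one_ne_zero hs2

open Submodule in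
/-- three independent vectors in the span of three vectors span it -/
theorem mem_of_ind {x y z p q r s : V} (hp : p ∈ span K {x, y, z}) (hq : q ∈ span K {x, y, z})
    (hr : r ∈ span K {x, y, z}) (hs : s ∈ span K {x, y, z})
    (hind : ∀ u v w : K, u • p + v • q + w • r = 0 → u = 0 ∧ v = 0 ∧ w = 0) :
    ∃ u v w : K, s = u • p + v • q + w • r := by
  have hli : LinearIndependent K ![p, q, r] := by
    rw [Fintype.linearIndependent_iff]
    intro g hg
    simp only [Fin.sum_univ_three, Matrix.cons_val_zero, Matrix.cons_val_one,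
      Matrix.cons_val_two, Matrix.head_cons, Matrix.tail_cons, Matrix.cons_val] at hg
    obtain ⟨h1, h2, h3⟩ := hind _ _ _ hg
    intro i
    fin_cases i
    · exact h1
    · exact h2
    · exact h3
  have hrange : Set.range ![p, q, r] = {p, q, r} := by
    ext v
    simp only [Matrix.range_cons, Matrix.range_empty, Set.union_empty, Set.mem_union,
      Set.mem_singleton_iff, Set.mem_insert_iff]
  have hle : span K {p, q, r} ≤ span K {x, y, z} := by
    rw [span_le]
    intro v hv
    simp only [Set.mem_insert_iff, Set.mem_singleton_iff] at hv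
    rcases hv with rfl | rfl | rfl
    · exact hp
    · exact hq
    · exact hr
  have hfin : Module.finrank K (span K {p, q, r}) = 3 := by
    rw [← hrange, finrank_span_eq_card hli, Fintype.card_fin]
  haveI : FiniteDimensional K (span K ({x, y, z} : Set V)) :=
    FiniteDimensional.span_of_finite K (by simp)
  have hfin2 : Module.finrank K (span K ({x, y, z} : Set V)) ≤ 3 := by
    classical
    have h1 := finrank_span_finset_le_card (R := K) ({x, y, z} : Finset V)
    have h2 : (({x, y, z} : Finset V) : Set V) = {x, y, z} := by simp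
    rw [h2] at h1
    exact h1.trans Finset.card_le_three
  have heq : span K {p, q, r} = span K {x, y, z} :=
    eq_of_le_of_finrank_le hle (by rw [hfin]; exact hfin2)
  rw [← heq, mem_span_triple] at hs
  obtain ⟨u, v, w, h⟩ := hs
  exact ⟨u, v, w, h.symm⟩

/-- If the map can be applied twice then four consecutive vertices of the same parity are
independent. -/
theorem ind4 (S : Stp K a b) (S' : Stp K b c) (i : ℤ) (x y z w : K)
    (h : x • a (i - 3) + y • a (i - 1) + z • a (i + 1) + w • a (i + 3) = 0) :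
    x = 0 ∧ y = 0 ∧ z = 0 ∧ w = 0 := by
  by_cases hw : w = 0
  · subst hw
    have h3 := S.ind3 (i - 1) x y z (by
      rw [show i - 1 - 2 = i - 3 by ring, show i - 1 + 2 = i + 1 by ring]
      rw [zero_smul, add_zero] at h
      exact h)
    exact ⟨h3.1, h3.2.1, h3.2.2, rfl⟩
  · exfalso
    have hmem1 : a (i - 3) ∈ Submodule.span K {a (i - 3), a (i - 1), a (i + 1)} :=
      Submodule.subset_span (by simp)
    have hmem2 : a (i - 1) ∈ Submodule.span K {a (i - 3), a (i - 1), a (i + 1)} :=
      Submodule.subset_span (by simp)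
    have hmem3 : a (i + 1) ∈ Submodule.span K {a (i - 3), a (i - 1), a (i + 1)} :=
      Submodule.subset_span (by simp)
    have hmem4 : a (i + 3) ∈ Submodule.span K {a (i - 3), a (i - 1), a (i + 1)} := by
      have h1 : a (i + 3) = (-(w⁻¹ * x)) • a (i - 3) + (-(w⁻¹ * y)) • a (i - 1) +
          (-(w⁻¹ * z)) • a (i + 1) := by
        have h2 : w⁻¹ • (x • a (i - 3) + y • a (i - 1) + z • a (i + 1) + w • a (i + 3)) = 0 := by
          rw [h, smul_zero]
        simp only [smul_add, smul_smul, inv_mul_cancel₀ hw, one_smul] at h2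
        have h3 : a (i + 3) = -((w⁻¹ * x) • a (i - 3) + (w⁻¹ * y) • a (i - 1) +
            (w⁻¹ * z) • a (i + 1)) := by
          rw [eq_neg_iff_add_eq_zero, add_comm]
          exact h2
        rw [h3]
        module
      rw [h1]
      exact Submodule.add_mem _ (Submodule.add_mem _ (Submodule.smul_mem _ _ hmem1)
        (Submodule.smul_mem _ _ hmem2)) (Submodule.smul_mem _ _ hmem3)
    have hm2 : b (i - 2) ∈ Submodule.span K {a (i - 3), a (i - 1), a (i + 1)} := by
      rw [S.hD (i - 2), show i - 2 - 1 = i - 3 by ring, show i - 2 + 1 = i - 1 by ring]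
      exact Submodule.add_mem _ (Submodule.smul_mem _ _ hmem1) (Submodule.smul_mem _ _ hmem2)
    have h0 : b i ∈ Submodule.span K {a (i - 3), a (i - 1), a (i + 1)} := by
      rw [S.hD i]
      exact Submodule.add_mem _ (Submodule.smul_mem _ _ hmem2) (Submodule.smul_mem _ _ hmem3)
    have h2 : b (i + 2) ∈ Submodule.span K {a (i - 3), a (i - 1), a (i + 1)} := by
      rw [S.hD (i + 2), show i + 2 - 1 = i + 1 by ring, show i + 2 + 1 = i + 3 by ring]
      exact Submodule.add_mem _ (Submodule.smul_mem _ _ hmem3) (Submodule.smul_mem _ _ hmem4)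
    have hm1 : b (i - 1) ∈ Submodule.span K {a (i - 3), a (i - 1), a (i + 1)} := by
      rw [S.hE (i - 1), show i - 1 - 2 = i - 3 by ring, show i - 1 + 2 = i + 1 by ring]
      exact Submodule.neg_mem _ (Submodule.add_mem _ (Submodule.add_mem _
        (Submodule.smul_mem _ _ hmem1) (Submodule.smul_mem _ _ hmem2))
        (Submodule.smul_mem _ _ hmem3))
    have h1 : b (i + 1) ∈ Submodule.span K {a (i - 3), a (i - 1), a (i + 1)} := by
      rw [S.hE (i + 1), show i + 1 - 2 = i - 1 by ring, show i + 1 + 2 = i + 3 by ring]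
      exact Submodule.neg_mem _ (Submodule.add_mem _ (Submodule.add_mem _
        (Submodule.smul_mem _ _ hmem2) (Submodule.smul_mem _ _ hmem3))
        (Submodule.smul_mem _ _ hmem4))
    obtain ⟨u, v, w', e1⟩ := mem_of_ind hm2 h0 h2 hm1 (S'.ind3 i)
    obtain ⟨u', v', w'', e2⟩ := mem_of_ind hm2 h0 h2 h1 (S'.ind3 i)
    exact S'.not_both i e1 e2

/-- The two operators of consecutive steps commute in the twisted sense. -/
theorem comm (S : Stp K a b) (S' : Stp K b c) (h : ℤ → K) :
    S'.Do (S.De h) = S'.De (S.Do h) := by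
  funext i
  have key := ind4 S S' i
    (S'.β i * S.α (i - 1) - S'.α i * S.β (i - 2))
    (S'.β i * S.γ (i - 1) + S'.δ i * S.α (i + 1) - S'.α i * S.δ (i - 2) - S'.γ i * S.β i)
    (S'.β i * S.ε (i - 1) + S'.δ i * S.γ (i + 1) - S'.γ i * S.δ i - S'.ε i * S.β (i + 2))
    (S'.δ i * S.ε (i + 1) - S'.ε i * S.δ (i + 2))
    (by
      have e1 : S'.β i • b (i - 1) + S'.δ i • b (i + 1) +
          (S'.α i • b (i - 2) + S'.γ i • b i + S'.ε i • b (i + 2)) = 0 := by
        rw [← S'.hD i]
        nth_rw 1 [S'.hE i]
        exact neg_add_cancel _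
      have f1 := S.hE (i - 1)
      have f2 := S.hE (i + 1)
      have f3 := S.hD (i - 2)
      have f4 := S.hD i
      have f5 := S.hD (i + 2)
      rw [show i - 1 - 2 = i - 3 by ring, show i - 1 + 2 = i + 1 by ring] at f1
      rw [show i + 1 - 2 = i - 1 by ring, show i + 1 + 2 = i + 3 by ring] at f2
      rw [show i - 2 - 1 = i - 3 by ring, show i - 2 + 1 = i - 1 by ring] at f3
      rw [show i + 2 - 1 = i + 1 by ring, show i + 2 + 1 = i + 3 by ring] at f5
      rw [f1, f2, f3, f4, f5] at e1
      rw [← neg_eq_zero, ← e1]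
      module)
  obtain ⟨k1, k2, k3, k4⟩ := key
  simp only [Do, De]
  rw [show i - 1 - 2 = i - 3 by ring, show i - 1 + 2 = i + 1 by ring,
    show i + 1 - 2 = i - 1 by ring, show i + 1 + 2 = i + 3 by ring,
    show i - 2 - 1 = i - 3 by ring, show i - 2 + 1 = i - 1 by ring,
    show i + 2 - 1 = i + 1 by ring, show i + 2 + 1 = i + 3 by ring]
  linear_combination h (i - 3) * k1 + h (i - 1) * k2 + h (i + 1) * k3 + h (i + 3) * k4

/-- A step, at a vertex near which a common kernel vector of the two operators does not vanish,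
gives three collinear vertices. -/
theorem collinear (S : Stp K a b) (S' : Stp K b c) (v : ℤ → K) (h1 : S.Do v = 0)
    (h2 : S.De v = 0) (i : ℤ) (hv : v (i - 2) ≠ 0 ∨ v i ≠ 0 ∨ v (i + 2) ≠ 0) :
    ∃ x y : K, b i = x • b (i - 1) + y • b (i + 1) := by
  set M : Matrix (Fin 3) (Fin 3) K := !![S.β (i - 1), S.δ (i - 1), 0; 0, S.β (i + 1), S.δ (i + 1);
    S.α i, S.γ i, S.ε i] with hM
  have hdet : M.det = 0 := by
    rw [← Matrix.exists_mulVec_eq_zero_iff]
    refine ⟨![v (i - 2), v i, v (i + 2)], ?_, ?_⟩
    · intro h0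
      have e0 := congrFun h0 0
      have e1 := congrFun h0 1
      have e2 := congrFun h0 2
      simp only [Matrix.cons_val_zero, Matrix.cons_val_one, Matrix.cons_val, Pi.zero_apply]
        at e0 e1 e2
      rcases hv with h | h | h
      · exact h e0
      · exact h e1
      · exact h e2
    · have g1 := congrFun h1 (i - 1)
      have g2 := congrFun h1 (i + 1)
      have g3 := congrFun h2 i
      simp only [Do, De, Pi.zero_apply] at g1 g2 g3
      rw [show i - 1 - 1 = i - 2 by ring, show i - 1 + 1 = i by ring] at g1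
      rw [show i + 1 - 1 = i by ring, show i + 1 + 1 = i + 2 by ring] at g2
      funext k
      fin_cases k
      · simp [hM, Matrix.mulVec, dotProduct, Fin.sum_univ_three]
        linear_combination g1
      · simp [hM, Matrix.mulVec, dotProduct, Fin.sum_univ_three]
        linear_combination g2
      · simp [hM, Matrix.mulVec, dotProduct, Fin.sum_univ_three]
        linear_combination g3
  rw [← Matrix.exists_vecMul_eq_zero_iff] at hdet
  obtain ⟨u, hu, huM⟩ := hdet
  have g0 := congrFun huM 0
  have g1 := congrFun huM 1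
  have g2 := congrFun huM 2
  simp [hM, Matrix.vecMul, dotProduct, Fin.sum_univ_three] at g0 g1 g2
  have f1 := S.hD (i - 1)
  have f2 := S.hD (i + 1)
  have f3 := S.hE i
  rw [show i - 1 - 1 = i - 2 by ring, show i - 1 + 1 = i by ring] at f1
  rw [show i + 1 - 1 = i by ring, show i + 1 + 1 = i + 2 by ring] at f2
  have hrel : u 0 • b (i - 1) + u 1 • b (i + 1) = u 2 • b i := by
    have : u 0 • b (i - 1) + u 1 • b (i + 1) - u 2 • b i =
        (u 0 * S.β (i - 1) + u 2 * S.α i) • a (i - 2) +
        (u 0 * S.δ (i - 1) + u 1 * S.β (i + 1) + u 2 * S.γ i) • a i +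
        (u 1 * S.δ (i + 1) + u 2 * S.ε i) • a (i + 2) := by
      rw [f1, f2, f3]
      module
    rw [g0, g1, g2, zero_smul, zero_smul, zero_smul, add_zero, add_zero, sub_eq_zero] at this
    exact this
  have hu2 : u 2 ≠ 0 := by
    intro h0
    rw [h0, zero_smul] at hrel
    obtain ⟨e0, e1⟩ := S'.ind2 i _ _ hrel
    apply hu
    funext k
    fin_cases k
    · exact e0
    · exact e1
    · exact h0
  refine ⟨(u 2)⁻¹ * u 0, (u 2)⁻¹ * u 1, ?_⟩
  have : (u 2)⁻¹ • (u 2 • b i) = b i := by rw [smul_smul, inv_mul_cancel₀ hu2, one_smul]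
  rw [← this, ← hrel, smul_add, smul_smul, smul_smul]

/-- If the map can be applied twice, the two operators have no common kernel. -/
theorem no_ker (S : Stp K a b) (S' : Stp K b c) (v : ℤ → K) (h1 : S.Do v = 0)
    (h2 : S.De v = 0) : v = 0 := by
  by_contra hne
  obtain ⟨i, hi⟩ : ∃ i, v i ≠ 0 := by
    by_contra hcon
    push Not at hcon
    exact hne (funext hcon)
  obtain ⟨x, y, hxy⟩ := collinear S S' v h1 h2 i (Or.inr (Or.inl hi))
  obtain ⟨x', y', hxy'⟩ := collinear S S' v h1 h2 (i + 2) (Or.inl (by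
    rw [show i + 2 - 2 = i by ring]; exact hi))
  refine S'.not_both (i + 1) (u := x) (v := y) (w := 0) (u' := 0) (v' := x') (w' := y') ?_ ?_
  · rw [show i + 1 - 1 = i by ring, show i + 1 - 2 = i - 1 by ring, hxy, zero_smul, add_zero]
  · rw [show i + 1 + 1 = i + 2 by ring, hxy', show i + 2 - 1 = i + 1 by ring,
      show i + 2 + 1 = i + 1 + 2 by ring, zero_smul, zero_add]

theorem Do_zero (S : Stp K a b) : S.Do 0 = 0 := by
  funext i
  simp [Do]

theorem De_zero (S : Stp K a b) : S.De 0 = 0 := by
  funext i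
  simp [De]

end Stp

/-- Transport of a chain. -/
theorem transport : ∀ (m : ℕ) (G : ℕ → ℤ → V) (S : ∀ k, k < m → Stp K (G k) (G (k + 1)))
    (f : V →ₗ[K] K) (c : ℤ) (h : ℕ → ℤ → K) (_ : ∀ (h0 : 0 < m), ∀ r, r < m →
      (S 0 h0).Do (h r) = (S 0 h0).De (h (r + 1))) (_ : h m = 0)
    (_ : h 0 = fun i => if Even (i - c) then f (G 0 i) else 0) (i : ℤ) (_ : Even (i - c - m)),
    f (G m i) = 0 := by
  intro m
  induction m with
  | zero =>
    intro G S f c h _ hm h0 i hi
    rw [h0] at hm
    have := congrFun hm i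
    simp only [Pi.zero_apply] at this
    rw [if_pos (by simpa using hi)] at this
    exact this
  | succ m ih =>
    intro G S f c h hch hm h0 i hi
    have S0 := S 0 (Nat.succ_pos m)
    have hch0 := hch (Nat.succ_pos m)
    refine ih (fun k => G (k + 1)) (fun k hk => S (k + 1) (by omega)) f (c + 1)
      (fun r => (S 0 (Nat.succ_pos m)).Do (h r)) ?_ ?_ ?_ i ?_
    · intro hm0 r hr
      have e1 := hch0 r (by omega)
      change (S (0 + 1) _).Do ((S 0 (Nat.succ_pos m)).Do (h r)) =
        (S (0 + 1) _).De ((S 0 (Nat.succ_pos m)).Do (h (r + 1)))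
      rw [e1]
      exact Stp.comm _ _ _
    · change (S 0 (Nat.succ_pos m)).Do (h m) = 0
      rw [hch0 m (by omega), hm, Stp.De_zero]
    · change (S 0 (Nat.succ_pos m)).Do (h 0) = _
      rw [h0]
      funext j
      simp only [Stp.Do]
      have hD := (S 0 (Nat.succ_pos m)).hD j
      by_cases hj : Even (j - (c + 1))
      · rw [if_pos hj, if_pos, if_pos]
        · change _ = f (G (0 + 1) j)
          rw [hD, map_add, map_smul, map_smul]
          rfl
        · have : j + 1 - c = j - (c + 1) + 2 := by ring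
          rw [this]
          exact hj.add even_two
        · have : j - 1 - c = j - (c + 1) := by ring
          rw [this]
          exact hj
      · rw [if_neg hj, if_neg, if_neg]
        · simp
        · intro hcon
          apply hj
          have : j - (c + 1) = j + 1 - c - 2 := by ring
          rw [this]
          exact hcon.sub even_two
        · intro hcon
          apply hj
          have : j - (c + 1) = j - 1 - c := by ring
          rw [this]
          exact hcon
    · have : i - (c + 1) - (m : ℤ) = i - c - ((m + 1 : ℕ) : ℤ) := by push_cast; ring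
      rw [this]
      exact hi

/-- A chain which starts and ends with `0` is `0`. -/
theorem rigid : ∀ (m : ℕ) (G : ℕ → ℤ → V) (S : ∀ k, k < m → Stp K (G k) (G (k + 1)))
    (h : ℕ → ℤ → K) (_ : ∀ (h0 : 0 < m), ∀ r, r < m →
      (S 0 h0).Do (h r) = (S 0 h0).De (h (r + 1))) (_ : h m = 0) (_ : h 0 = 0) (r : ℕ)
    (_ : r ≤ m), h r = 0 := by
  intro m
  induction m with
  | zero =>
    intro G S h _ _ h0 r hr
    have : r = 0 := by omega
    rw [this, h0]
  | succ m ih =>
    intro G S h hch hm h0 r hr
    have hch0 := hch (Nat.succ_pos m)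
    have ih' := ih (fun k => G (k + 1)) (fun k hk => S (k + 1) (by omega))
      (fun r => (S 0 (Nat.succ_pos m)).Do (h r)) ?_ ?_ ?_
    · rcases Nat.eq_zero_or_pos r with rfl | hr0
      · exact h0
      rcases Nat.lt_or_ge r (m + 1) with hr1 | hr1
      · have hm0 : 0 < m := by omega
        refine Stp.no_ker (S 0 (Nat.succ_pos m)) (S (0 + 1) (by omega)) (h r) ?_ ?_
        · exact ih' r (by omega)
        · have e1 := hch0 (r - 1) (by omega)
          rw [show r - 1 + 1 = r by omega] at e1
          rw [← e1]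
          exact ih' (r - 1) (by omega)
      · have : r = m + 1 := by omega
        rw [this, hm]
    · intro hm0 r hr
      have e1 := hch0 r (by omega)
      change (S (0 + 1) _).Do ((S 0 (Nat.succ_pos m)).Do (h r)) =
        (S (0 + 1) _).De ((S 0 (Nat.succ_pos m)).Do (h (r + 1)))
      rw [e1]
      exact Stp.comm _ _ _
    · change (S 0 (Nat.succ_pos m)).Do (h m) = 0
      rw [hch0 m (by omega), hm, Stp.De_zero]
    · change (S 0 (Nat.succ_pos m)).Do (h 0) = 0
      rw [h0, Stp.Do_zero]

end Pool.Agent.K6.H22.Devron
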