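import Mathlib
import Pool.Agent.K6.H22.Devron

/-!
The dimension count: for a closed polygon such that the relations of the vertices of each parity
satisfy a linear relation, there is a chain.
-/

set_option autoImplicit false

namespace Pool.Agent.K6.H22.Devron

variable {K V : Type*} [Field K] [AddCommGroup V] [Module K V]

/-- the residue of an integer modulo `n`, as an element of `Fin n` -/
def idx (n : ℕ) [NeZero n] (j : ℤ) : Fin n :=
  ⟨(j % n).toNat, by
    have h1 : (0 : ℤ) < n := by exact_mod_cast Nat.pos_of_ne_zero (NeZero.ne n)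
    have h2 := Int.emod_lt_of_pos j h1
    have h3 := Int.emod_nonneg j h1.ne'
    omega⟩

theorem idx_add (n : ℕ) [NeZero n] (j : ℤ) : idx n (j + n) = idx n j := by
  simp [idx]

theorem idx_coe (n : ℕ) [NeZero n] (j : Fin n) : idx n (j : ℤ) = j := by
  have h1 : ((j : ℕ) : ℤ) % n = (j : ℕ) := by
    apply Int.emod_eq_of_lt
    · omega
    · exact_mod_cast j.2
  ext
  simp only [idx]
  rw [h1]
  simp

theorem idx_spec (n : ℕ) [NeZero n] (j : ℤ) : ∃ q : ℤ, j = ((idx n j : ℕ) : ℤ) + n * q := by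
  refine ⟨j / n, ?_⟩
  have h1 : (0 : ℤ) < n := by exact_mod_cast Nat.pos_of_ne_zero (NeZero.ne n)
  have h3 := Int.emod_nonneg j h1.ne'
  have h4 : (((idx n j : Fin n) : ℕ) : ℤ) = j % n := by
    simp only [idx]
    exact Int.toNat_of_nonneg h3
  rw [h4]
  exact (Int.emod_add_mul_ediv j n).symm

section count

variable {n : ℕ} [NeZero n] {m : ℕ}

/-- the level functions -/
def hf (a : ℤ → V) (c : ℤ) (r : ℕ) (x : Module.Dual K V × (Fin m → Fin n → K)) : ℤ → K :=
  match r with
  | 0 => fun i => if Even (i - c) then x.1 (a i) else 0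
  | r + 1 => fun i => if h : r < m then
      (if Even (i - c - ((r + 1 : ℕ) : ℤ)) then x.2 ⟨r, h⟩ (idx n ((i - c - ((r + 1 : ℕ) : ℤ)) / 2))
        else 0) else 0

theorem hf_add (a : ℤ → V) (c : ℤ) (r : ℕ) (x y : Module.Dual K V × (Fin m → Fin n → K)) (i : ℤ) :
    hf a c r (x + y) i = hf a c r x i + hf a c r y i := by
  cases r with
  | zero =>
    simp only [hf]
    split_ifs <;> simp
  | succ r =>
    simp only [hf]
    split_ifs <;> simp

theorem hf_smul (a : ℤ → V) (c : ℤ) (r : ℕ) (t : K) (x : Module.Dual K V × (Fin m → Fin n → K))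
    (i : ℤ) : hf a c r (t • x) i = t * hf a c r x i := by
  cases r with
  | zero =>
    simp only [hf]
    split_ifs <;> simp
  | succ r =>
    simp only [hf]
    split_ifs <;> simp

theorem hf_supp (a : ℤ → V) (c : ℤ) (r : ℕ) (x : Module.Dual K V × (Fin m → Fin n → K)) (i : ℤ)
    (hi : ¬ Even (i - c - r)) : hf a c r x i = 0 := by
  cases r with
  | zero =>
    simp only [hf]
    rw [if_neg]
    simpa using hi
  | succ r =>
    simp only [hf]
    split_ifs <;> simp

theorem hf_per (a : ℤ → V) (ha : ∀ i, a (i + 2 * n) = a i) (c : ℤ) (r : ℕ)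
    (x : Module.Dual K V × (Fin m → Fin n → K)) (i : ℤ) :
    hf a c r x (i + 2 * n) = hf a c r x i := by
  cases r with
  | zero =>
    simp only [hf]
    rw [ha]
    have h1 : Even (i + 2 * (n : ℤ) - c) ↔ Even (i - c) := by
      have : i + 2 * (n : ℤ) - c = (i - c) + 2 * n := by ring
      rw [this, Int.even_add]
      simp
    simp only [h1]
  | succ r =>
    simp only [hf]
    have h1 : Even (i + 2 * (n : ℤ) - c - ((r + 1 : ℕ) : ℤ)) ↔ Even (i - c - ((r + 1 : ℕ) : ℤ)) := by
      have : i + 2 * (n : ℤ) - c - ((r + 1 : ℕ) : ℤ) = (i - c - ((r + 1 : ℕ) : ℤ)) + 2 * n := by ring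
      rw [this, Int.even_add]
      simp
    have h2 : (i + 2 * (n : ℤ) - c - ((r + 1 : ℕ) : ℤ)) / 2 = (i - c - ((r + 1 : ℕ) : ℤ)) / 2 + n := by
      have : i + 2 * (n : ℤ) - c - ((r + 1 : ℕ) : ℤ) = (i - c - ((r + 1 : ℕ) : ℤ)) + n * 2 := by ring
      rw [this, Int.add_mul_ediv_right _ _ (by norm_num)]
    simp only [h1, h2, idx_add]

theorem exists_chain {a b : ℤ → V} (S : Stp K a b) (hn : n = m + 4)
    (hV : Module.finrank K V = 4)
    (ha : ∀ i, a (i + 2 * n) = a i) (hb : ∀ i, b (i + 2 * n) = b i)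
    (x y z w : ℤ → K) (hx : ∀ i, x (i + 2 * n) = x i) (hy : ∀ i, y (i + 2 * n) = y i)
    (hz : ∀ i, z (i + 2 * n) = z i)
    (hw1 : ∀ i, w i * S.β i = - y (i - 1)) (hw2 : ∀ i, w i * S.δ i = y (i + 1))
    (hw3 : ∀ i, w i * S.α i = - x (i - 1)) (hw4 : ∀ i, w i * S.γ i = x (i + 1) - z (i - 1))
    (hw5 : ∀ i, w i * S.ε i = z (i + 1))
    (hne : ∀ d : ℤ, ∃ j : ℤ, w (2 * j + d) ≠ 0) (c : ℤ) :
    ∃ (f : Module.Dual K V) (h : ℕ → ℤ → K),
      (∀ r, r < m + 1 → S.Do (h r) = S.De (h (r + 1))) ∧ h (m + 1) = 0 ∧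
      (h 0 = fun i => if Even (i - c) then f (a i) else 0) ∧
      ¬ (f = 0 ∧ ∀ r, r ≤ m + 1 → h r = 0) := by
  classical
  have : FiniteDimensional K V := Module.finite_of_finrank_pos (by omega)
  have hnpos : (0 : ℤ) < n := by exact_mod_cast Nat.pos_of_ne_zero (NeZero.ne n)
  -- periodicity of the coefficients
  have hβδ : ∀ i, S.β (i + 2 * n) = S.β i ∧ S.δ (i + 2 * n) = S.δ i := by
    intro i
    have e1 := S.hD i
    have e2 := S.hD (i + 2 * n)
    rw [hb, show i + 2 * (n : ℤ) - 1 = (i - 1) + 2 * n by ring, ha,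
      show i + 2 * (n : ℤ) + 1 = (i + 1) + 2 * n by ring, ha] at e2
    have e3 : (S.β (i + 2 * n) - S.β i) • a (i - 1) + (S.δ (i + 2 * n) - S.δ i) • a (i + 1) = 0 := by
      have : (S.β (i + 2 * n) - S.β i) • a (i - 1) + (S.δ (i + 2 * n) - S.δ i) • a (i + 1) =
          (S.β (i + 2 * n) • a (i - 1) + S.δ (i + 2 * n) • a (i + 1)) -
          (S.β i • a (i - 1) + S.δ i • a (i + 1)) := by module
      rw [this, ← e1, ← e2, sub_self]
    obtain ⟨f1, f2⟩ := S.ind2 i _ _ e3
    exact ⟨sub_eq_zero.mp f1, sub_eq_zero.mp f2⟩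
  have hαγε : ∀ i, S.α (i + 2 * n) = S.α i ∧ S.γ (i + 2 * n) = S.γ i ∧ S.ε (i + 2 * n) = S.ε i := by
    intro i
    have e1 := S.hE i
    have e2 := S.hE (i + 2 * n)
    rw [hb, show i + 2 * (n : ℤ) - 2 = (i - 2) + 2 * n by ring, ha, ha,
      show i + 2 * (n : ℤ) + 2 = (i + 2) + 2 * n by ring, ha] at e2
    have e3 : (S.α (i + 2 * n) - S.α i) • a (i - 2) + (S.γ (i + 2 * n) - S.γ i) • a i +
        (S.ε (i + 2 * n) - S.ε i) • a (i + 2) = 0 := by
      have : (S.α (i + 2 * n) - S.α i) • a (i - 2) + (S.γ (i + 2 * n) - S.γ i) • a i +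
        (S.ε (i + 2 * n) - S.ε i) • a (i + 2) =
          (-(S.α i • a (i - 2) + S.γ i • a i + S.ε i • a (i + 2))) -
          (-(S.α (i + 2 * n) • a (i - 2) + S.γ (i + 2 * n) • a i +
            S.ε (i + 2 * n) • a (i + 2))) := by
        module
      rw [this, ← e1, ← e2, sub_self]
    obtain ⟨f1, f2, f3⟩ := S.ind3 i _ _ _ e3
    exact ⟨sub_eq_zero.mp f1, sub_eq_zero.mp f2, sub_eq_zero.mp f3⟩
  -- the equations
  set E : ℕ → (Module.Dual K V × (Fin m → Fin n → K)) → ℤ → K := fun r X i =>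
    S.Do (hf a c r X) i - S.De (hf a c (r + 1) X) i with hE
  have hEper : ∀ r X i, E r X (i + 2 * n) = E r X i := by
    intro r X i
    simp only [hE, Stp.Do, Stp.De]
    rw [(hβδ i).1, (hβδ i).2, (hαγε i).1, (hαγε i).2.1, (hαγε i).2.2,
      show i + 2 * (n : ℤ) - 1 = (i - 1) + 2 * n by ring,
      show i + 2 * (n : ℤ) + 1 = (i + 1) + 2 * n by ring,
      show i + 2 * (n : ℤ) - 2 = (i - 2) + 2 * n by ring,
      show i + 2 * (n : ℤ) + 2 = (i + 2) + 2 * n by ring]
    simp only [hf_per a ha]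
  have hEmul : ∀ r X (i q : ℤ), E r X (i + 2 * n * q) = E r X i := by
    intro r X i q
    have := Function.Periodic.int_mul (f := E r X) (c := 2 * (n : ℤ)) (fun i => hEper r X i) q i
    rw [← this]
    congr 1
    push_cast
    ring
  let T : (Module.Dual K V × (Fin m → Fin n → K)) →ₗ[K] (Fin (m + 1) → Fin n → K) :=
    { toFun := fun X r j => E r X (2 * ((j : ℕ) : ℤ) + (c + (r : ℕ) + 1))
      map_add' := by
        intro X Y
        funext r j
        simp only [hE, Stp.Do, Stp.De, hf_add, Pi.add_apply]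
        ring
      map_smul' := by
        intro t X
        funext r j
        simp only [hE, Stp.Do, Stp.De, hf_smul, Pi.smul_apply, smul_eq_mul, RingHom.id_apply]
        ring }
  let W : (Fin (m + 1) → Fin n → K) →ₗ[K] (Fin (m + 1) → K) :=
    { toFun := fun Y r => ∑ j : Fin n, w (2 * ((j : ℕ) : ℤ) + (c + (r : ℕ) + 1)) * Y r j
      map_add' := by
        intro X Y
        funext r
        simp only [Pi.add_apply, mul_add, Finset.sum_add_distrib]
      map_smul' := by
        intro t X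
        funext r
        simp only [Pi.smul_apply, smul_eq_mul, RingHom.id_apply, Finset.mul_sum]
        refine Finset.sum_congr rfl fun j _ => ?_
        ring }
  have hwper : ∀ i, w (i + 2 * n) = w i := by
    intro i
    have hr := (hβδ i)
    -- use that the vertex `b i` is not zero
    have e1 := S.hD i
    have e2 : w (i + 2 * n) • b i = w i • b i := by
      rw [e1, smul_add, smul_add, smul_smul, smul_smul, smul_smul, smul_smul, hw1 i, hw2 i]
      nth_rw 1 [← hr.1]
      nth_rw 1 [← hr.2]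
      rw [hw1, hw2, show i + 2 * (n : ℤ) - 1 = (i - 1) + 2 * n by ring,
        show i + 2 * (n : ℤ) + 1 = (i + 1) + 2 * n by ring, hy, hy]
    have e3 : (w (i + 2 * n) - w i) • b i = 0 := by rw [sub_smul, e2, sub_self]
    rcases smul_eq_zero.mp e3 with h | h
    · exact sub_eq_zero.mp h
    · exact absurd h (S.hb i)
  have hwmul : ∀ (i q : ℤ), w (i + 2 * n * q) = w i := by
    intro i q
    have := Function.Periodic.int_mul (f := w) (c := 2 * (n : ℤ)) (fun i => hwper i) q i
    rw [← this]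
    congr 1
    push_cast
    ring
  have hWsurj : Function.Surjective W := by
    intro t
    have hj : ∀ r : Fin (m + 1), ∃ j : Fin n, w (2 * ((j : ℕ) : ℤ) + (c + (r : ℕ) + 1)) ≠ 0 := by
      intro r
      obtain ⟨j, hj⟩ := hne (c + (r : ℕ) + 1)
      refine ⟨idx n j, ?_⟩
      obtain ⟨q, hq⟩ := idx_spec n j
      intro h0
      apply hj
      rw [hq, ← h0, ← hwmul (2 * (((idx n j : Fin n) : ℕ) : ℤ) + (c + (r : ℕ) + 1)) q]
      congr 1
      ring
    choose j hj using hj
    refine ⟨fun r i => if i = j r then t r / w (2 * (((j r : Fin n) : ℕ) : ℤ) + (c + (r : ℕ) + 1))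
      else 0, ?_⟩
    funext r
    change ∑ i : Fin n, w (2 * ((i : ℕ) : ℤ) + (c + (r : ℕ) + 1)) *
      (if i = j r then t r / w (2 * (((j r : Fin n) : ℕ) : ℤ) + (c + (r : ℕ) + 1)) else 0) = t r
    rw [Finset.sum_eq_single (j r)]
    · rw [if_pos rfl, mul_div_cancel₀ _ (hj r)]
    · intro i _ hi
      rw [if_neg hi, mul_zero]
    · intro h
      exact absurd (Finset.mem_univ _) h
  have hWT : ∀ X, W (T X) = 0 := by
    intro X
    funext r
    change ∑ j : Fin n, w (2 * ((j : ℕ) : ℤ) + (c + (r : ℕ) + 1)) *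
      E r X (2 * ((j : ℕ) : ℤ) + (c + (r : ℕ) + 1)) = 0
    set d : ℤ := c + (r : ℕ) + 1 with hd
    set h := hf a c r X with hh
    set h' := hf a c (r + 1) X with hh'
    set Ψ : ℤ → K := fun i => y i * h i - (x i * h' (i - 1) + z i * h' (i + 1)) with hΨ
    have hterm : ∀ i : ℤ, w i * E r X i = Ψ (i + 1) - Ψ (i - 1) := by
      intro i
      simp only [hE, hΨ, Stp.Do, Stp.De]
      rw [← hh, ← hh']
      rw [show i + 1 - 1 = i by ring, show i - 1 + 1 = i by ring, show i - 1 - 1 = i - 2 by ring,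
        show i + 1 + 1 = i + 2 by ring]
      linear_combination h (i - 1) * hw1 i + h (i + 1) * hw2 i - h' (i - 2) * hw3 i -
        h' i * hw4 i - h' (i + 2) * hw5 i
    have hsum : ∑ j : Fin n, w (2 * ((j : ℕ) : ℤ) + d) * E r X (2 * ((j : ℕ) : ℤ) + d) =
        ∑ j ∈ Finset.range n, (Ψ (2 * ((j + 1 : ℕ) : ℤ) + d - 1) - Ψ (2 * ((j : ℕ) : ℤ) + d - 1)) := by
      rw [← Fin.sum_univ_eq_sum_range (fun j : ℕ => Ψ (2 * ((j + 1 : ℕ) : ℤ) + d - 1) -
        Ψ (2 * ((j : ℕ) : ℤ) + d - 1)) n]
      refine Finset.sum_congr rfl fun j _ => ?_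
      rw [hterm]
      congr 2
      push_cast
      ring
    rw [hsum, Finset.sum_range_sub (fun j : ℕ => Ψ (2 * (j : ℤ) + d - 1))]
    have hΨper : ∀ i, Ψ (i + 2 * n) = Ψ i := by
      intro i
      simp only [hΨ]
      rw [hx, hy, hz, show i + 2 * (n : ℤ) - 1 = (i - 1) + 2 * n by ring,
        show i + 2 * (n : ℤ) + 1 = (i + 1) + 2 * n by ring, hh, hh', hf_per a ha, hf_per a ha,
        hf_per a ha]
    rw [show 2 * ((n : ℕ) : ℤ) + d - 1 = (d - 1) + 2 * n by ring, hΨper]
    simp only [Nat.cast_zero, mul_zero, zero_add, sub_self]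
  -- dimension count
  have hker : LinearMap.ker T ≠ ⊥ := by
    intro hbot
    have h1 := LinearMap.finrank_range_add_finrank_ker T
    rw [hbot, finrank_bot, add_zero] at h1
    have h2 := LinearMap.finrank_range_add_finrank_ker W
    rw [LinearMap.range_eq_top.mpr hWsurj, finrank_top] at h2
    have h3 : Module.finrank K (LinearMap.range T) ≤ Module.finrank K (LinearMap.ker W) := by
      apply Submodule.finrank_mono
      rintro _ ⟨X, rfl⟩
      exact hWT X
    have h4 : Module.finrank K (Module.Dual K V × (Fin m → Fin n → K)) = 4 + m * n := by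
      rw [Module.finrank_prod, Subspace.dual_finrank_eq, hV, Module.finrank_pi_fintype]
      simp
    have h5 : Module.finrank K (Fin (m + 1) → Fin n → K) = (m + 1) * n := by
      rw [Module.finrank_pi_fintype]
      simp
    have h6 : Module.finrank K (Fin (m + 1) → K) = m + 1 := by simp
    rw [h4] at h1
    rw [h5, h6] at h2
    have h7 : (m + 1) * n = m * n + n := by ring
    omega
  obtain ⟨X, hX, hX0⟩ := Submodule.exists_mem_ne_zero_of_ne_bot hker
  have hTX : ∀ (r : Fin (m + 1)) (j : Fin n), E r X (2 * ((j : ℕ) : ℤ) + (c + (r : ℕ) + 1)) = 0 := by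
    intro r j
    have := congrFun (congrFun (LinearMap.mem_ker.mp hX) r) j
    exact this
  refine ⟨X.1, fun r => hf a c r X, ?_, ?_, rfl, ?_⟩
  · intro r hr
    funext i
    have hgoal : E r X i = 0 := by
      by_cases hi : Even (i - (c + r + 1))
      · obtain ⟨j, hj⟩ := hi
        obtain ⟨q, hq⟩ := idx_spec n j
        have e1 := hTX ⟨r, hr⟩ (idx n j)
        have h3 : i = 2 * (((idx n j : Fin n) : ℕ) : ℤ) + (c + (r : ℕ) + 1) + 2 * n * q := by
          linear_combination hj + 2 * hq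
        rw [h3, hEmul]
        exact e1
      · simp only [hE, Stp.Do, Stp.De]
        have hs1 : hf a c r X (i - 1) = 0 := by
          apply hf_supp
          intro h
          apply hi
          have : i - (c + r + 1) = i - 1 - c - r := by ring
          rw [this]; exact h
        have hs2 : hf a c r X (i + 1) = 0 := by
          apply hf_supp
          intro h
          apply hi
          have : i - (c + r + 1) = i + 1 - c - r - 2 := by ring
          rw [this]; exact h.sub even_two
        have hs3 : hf a c (r + 1) X (i - 2) = 0 := by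
          apply hf_supp
          intro h
          apply hi
          have : i - (c + r + 1) = i - 2 - c - ((r + 1 : ℕ) : ℤ) + 2 := by push_cast; ring
          rw [this]; exact h.add even_two
        have hs4 : hf a c (r + 1) X i = 0 := by
          apply hf_supp
          intro h
          apply hi
          have : i - (c + r + 1) = i - c - ((r + 1 : ℕ) : ℤ) := by push_cast; ring
          rw [this]; exact h
        have hs5 : hf a c (r + 1) X (i + 2) = 0 := by
          apply hf_supp
          intro h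
          apply hi
          have : i - (c + r + 1) = i + 2 - c - ((r + 1 : ℕ) : ℤ) - 2 := by push_cast; ring
          rw [this]; exact h.sub even_two
        rw [hs1, hs2, hs3, hs4, hs5]
        ring
    exact sub_eq_zero.mp hgoal
  · funext i
    simp [hf]
  · rintro ⟨h1, h2⟩
    apply hX0
    have h3 : X.2 = 0 := by
      funext r j
      have e1 := congrFun (h2 ((r : ℕ) + 1) (by omega)) (2 * ((j : ℕ) : ℤ) + c + (((r : ℕ) + 1 : ℕ) : ℤ))
      simp only [hf, Pi.zero_apply] at e1
      rw [dif_pos r.2, if_pos] at e1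
      · have e2 : (2 * ((j : ℕ) : ℤ) + c + (((r : ℕ) + 1 : ℕ) : ℤ) - c - (((r : ℕ) + 1 : ℕ) : ℤ)) / 2 =
            (j : ℕ) := by
          have : 2 * ((j : ℕ) : ℤ) + c + (((r : ℕ) + 1 : ℕ) : ℤ) - c - (((r : ℕ) + 1 : ℕ) : ℤ) =
            2 * (j : ℕ) := by ring
          rw [this]
          simp
        rw [e2, idx_coe] at e1
        exact e1
      · have : 2 * ((j : ℕ) : ℤ) + c + (((r : ℕ) + 1 : ℕ) : ℤ) - c - (((r : ℕ) + 1 : ℕ) : ℤ) =
            2 * (j : ℕ) := by ring
        rw [this]
        exact even_two_mul _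
    exact Prod.ext h1 h3

end count

end Pool.Agent.K6.H22.Devron
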