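import Mathlib

set_option autoImplicit false

namespace Pool.Agent.K6.H22.Mae

/-- The quadratic inequality in the squares, with parameters `A1 A2 A3 δ > 0`. -/
theorem quad_aux {A1 A2 A3 δ x0 x1 x2 x3 Z : ℝ} (a1 : 0 < A1) (a2 : 0 < A2) (a3 : 0 < A3)
    (hδ : 0 < δ) (hZ : 0 ≤ Z)
    (hle : ((A1 + A2 + A3 + 4 * δ) * x0 - (A1 * x1 + A2 * x2 + A3 * x3)) ^ 2
      - 4 * δ * (A1 + A2 + A3 + 4 * δ) * x0 ^ 2 + 4 * δ * (A1 * x1 ^ 2 + A2 * x2 ^ 2 + A3 * x3 ^ 2)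
      + Z ≤ 0) : x0 = x1 ∧ x1 = x2 ∧ x1 = x3 := by
  have hV : 0 < A1 + A2 + A3 := by positivity
  have hU : 0 < A1 + A2 + A3 + 4 * δ := by positivity
  have key : (A1 + A2 + A3) * (((A1 + A2 + A3 + 4 * δ) * x0 - (A1 * x1 + A2 * x2 + A3 * x3)) ^ 2
      - 4 * δ * (A1 + A2 + A3 + 4 * δ) * x0 ^ 2 + 4 * δ * (A1 * x1 ^ 2 + A2 * x2 ^ 2 + A3 * x3 ^ 2))
      = (A1 + A2 + A3 + 4 * δ) * ((A1 + A2 + A3) * x0
          - (A1 * x1 + A2 * x2 + A3 * x3)) ^ 2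
        + 4 * δ * (A1 * A2 * (x1 - x2) ^ 2 + A1 * A3 * (x1 - x3) ^ 2
          + A2 * A3 * (x2 - x3) ^ 2) := by ring
  have hle' : (A1 + A2 + A3) * (((A1 + A2 + A3 + 4 * δ) * x0 - (A1 * x1 + A2 * x2 + A3 * x3)) ^ 2
      - 4 * δ * (A1 + A2 + A3 + 4 * δ) * x0 ^ 2 + 4 * δ * (A1 * x1 ^ 2 + A2 * x2 ^ 2 + A3 * x3 ^ 2))
      ≤ 0 := mul_nonpos_of_nonneg_of_nonpos hV.le (by linarith)
  rw [key] at hle'
  have n2 : 0 ≤ (A1 + A2 + A3 + 4 * δ) * ((A1 + A2 + A3) * x0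
          - (A1 * x1 + A2 * x2 + A3 * x3)) ^ 2 := by positivity
  have n3 : 0 ≤ 4 * δ * (A1 * A2 * (x1 - x2) ^ 2) := by positivity
  have n4 : 0 ≤ 4 * δ * (A1 * A3 * (x1 - x3) ^ 2) := by positivity
  have n5 : 0 ≤ 4 * δ * (A2 * A3 * (x2 - x3) ^ 2) := by positivity
  have e12 : x1 = x2 := by
    have h0 : 4 * δ * (A1 * A2 * (x1 - x2) ^ 2) = 0 := by linarith
    have h1 : (x1 - x2) ^ 2 = 0 := by
      have h2 : (4 * δ * (A1 * A2)) * (x1 - x2) ^ 2 = 0 := by linarith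
      rcases mul_eq_zero.mp h2 with h | h
      · exact absurd h (by positivity)
      · exact h
    have := (pow_eq_zero_iff (two_ne_zero)).mp h1
    linarith
  have e13 : x1 = x3 := by
    have h0 : 4 * δ * (A1 * A3 * (x1 - x3) ^ 2) = 0 := by linarith
    have h1 : (x1 - x3) ^ 2 = 0 := by
      have h2 : (4 * δ * (A1 * A3)) * (x1 - x3) ^ 2 = 0 := by linarith
      rcases mul_eq_zero.mp h2 with h | h
      · exact absurd h (by positivity)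
      · exact h
    have := (pow_eq_zero_iff (two_ne_zero)).mp h1
    linarith
  refine ⟨?_, e12, e13⟩
  have h0 : (A1 + A2 + A3 + 4 * δ) * ((A1 + A2 + A3) * x0
          - (A1 * x1 + A2 * x2 + A3 * x3)) ^ 2 = 0 := by linarith
  rcases mul_eq_zero.mp h0 with h | h
  · exact absurd h (by positivity)
  · have h1 := (pow_eq_zero_iff (two_ne_zero)).mp h
    rw [← e12, ← e13] at h1
    have h2 : (A1 + A2 + A3) * (x0 - x1) = 0 := by linear_combination h1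
    rcases mul_eq_zero.mp h2 with h | h
    · exact absurd h (by positivity)
    · linarith

/-- The quartic inequality behind the proof. -/
theorem quartic_pos {a b c δ S0 S1 S2 S3 : ℝ} (ha : 0 < a) (hb : 0 < b) (hc : 0 < c)
    (h1 : 0 < b + c - a) (h2 : 0 < c + a - b) (h3 : 0 < a + b - c)
    (hδ : 8 * a * b * c * δ = (a + b + c) * (b + c - a) * (c + a - b) * (a + b - c))
    (hq : 0 < (a + b + c) * S0 ^ 2 + (a - b - c) * S1 ^ 2 + (b - a - c) * S2 ^ 2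
      + (c - a - b) * S3 ^ 2) :
    0 < ((a + b + c) * S0 ^ 2 + (a - b - c) * S1 ^ 2 + (b - a - c) * S2 ^ 2
        + (c - a - b) * S3 ^ 2 + δ * (S0 ^ 2 + S1 ^ 2 + S2 ^ 2 + S3 ^ 2)) ^ 2
      - 4 * δ * ((a + b + c) * (S0 ^ 2) ^ 2 + (a - b - c) * (S1 ^ 2) ^ 2
        + (b - a - c) * (S2 ^ 2) ^ 2 + (c - a - b) * (S3 ^ 2) ^ 2)
      + 2 * δ ^ 2 * ((S0 ^ 2 + S1 ^ 2 + S2 ^ 2 + S3 ^ 2) ^ 2
        - 3 * ((S0 ^ 2) ^ 2 + (S1 ^ 2) ^ 2 + (S2 ^ 2) ^ 2 + (S3 ^ 2) ^ 2)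
        - 12 * (S0 * S1 * S2 * S3)) := by
  have habc : 0 < 8 * a * b * c := by positivity
  have hδ0 : 0 < δ := by
    have : 0 < 8 * a * b * c * δ := by rw [hδ]; positivity
    exact (pos_iff_pos_of_mul_pos this).mp habc
  -- the coefficients
  have k1 : 8 * a * b * c * ((b + c - a) - δ)
      = (b + c - a) * ((b + c - a) * (a ^ 2 + 2 * (b + c) * a + (b - c) ^ 2)) := by
    linear_combination (-1) * hδ
  have k2 : 8 * a * b * c * ((c + a - b) - δ)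
      = (c + a - b) * ((c + a - b) * (b ^ 2 + 2 * (c + a) * b + (c - a) ^ 2)) := by
    linear_combination (-1) * hδ
  have k3 : 8 * a * b * c * ((a + b - c) - δ)
      = (a + b - c) * ((a + b - c) * (c ^ 2 + 2 * (a + b) * c + (a - b) ^ 2)) := by
    linear_combination (-1) * hδ
  have a1 : 0 < (b + c - a) - δ := by
    have : 0 < 8 * a * b * c * ((b + c - a) - δ) := by rw [k1]; positivity
    exact (pos_iff_pos_of_mul_pos this).mp habc
  have a2 : 0 < (c + a - b) - δ := by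
    have : 0 < 8 * a * b * c * ((c + a - b) - δ) := by rw [k2]; positivity
    exact (pos_iff_pos_of_mul_pos this).mp habc
  have a3 : 0 < (a + b - c) - δ := by
    have : 0 < 8 * a * b * c * ((a + b - c) - δ) := by rw [k3]; positivity
    exact (pos_iff_pos_of_mul_pos this).mp habc
  by_contra hcon
  rw [not_lt] at hcon
  have hZ : 0 ≤ 4 * δ ^ 2 * ((S0 * S1 - S2 * S3) ^ 2 + (S0 * S2 - S1 * S3) ^ 2
          + (S0 * S3 - S1 * S2) ^ 2) := by positivity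
  obtain ⟨e01, e12, e13⟩ := quad_aux (x0 := S0 ^ 2) (x1 := S1 ^ 2) (x2 := S2 ^ 2) (x3 := S3 ^ 2)
    a1 a2 a3 hδ0 hZ (le_trans (le_of_eq (by ring)) hcon)
  rw [← e12, ← e13, e01] at hq
  have : (a + b + c) * S1 ^ 2 + (a - b - c) * S1 ^ 2 + (b - a - c) * S1 ^ 2
      + (c - a - b) * S1 ^ 2 = 0 := by ring
  linarith

/-- The contradiction in terms of the four (hyperbolic sines of) distances. -/
theorem core {a b c s1 s2 s3 s4 n : ℝ} (ha : 0 < a) (hb : 0 < b) (hc : 0 < c)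
    (hn : 0 < n)
    (hn1 : n = 2 * (a * (s1 * s2 + s3 * s4) + b * (s1 * s3 + s2 * s4) + c * (s1 * s4 + s2 * s3)))
    (hn2 : 2 * a * b * c * n = (a + b + c) * (b + c - a) * (c + a - b) * (a + b - c))
    (h1 : s1 ≠ 0) (h2 : s2 ≠ 0) (h3 : s3 ≠ 0) (h4 : s4 ≠ 0)
    (heq : a * ((s1 + 1 / s1) * (s2 + 1 / s2) + (s3 + 1 / s3) * (s4 + 1 / s4))
        + b * ((s1 + 1 / s1) * (s3 + 1 / s3) + (s2 + 1 / s2) * (s4 + 1 / s4))
        + c * ((s1 + 1 / s1) * (s4 + 1 / s4) + (s2 + 1 / s2) * (s3 + 1 / s3))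
      = 2 * ((a * s2 + b * s3 + c * s4) * (s1 + 1 / s1) + (a * s1 + b * s4 + c * s3) * (s2 + 1 / s2)
        + (a * s4 + b * s1 + c * s2) * (s3 + 1 / s3) + (a * s3 + b * s2 + c * s1) * (s4 + 1 / s4))) :
    False := by
  have hpos : 0 < (a + b + c) * (b + c - a) * (c + a - b) * (a + b - c) := by
    rw [← hn2]; positivity
  have hsum : 0 < a + b + c := by positivity
  have hprod : 0 < (b + c - a) * (c + a - b) * (a + b - c) := by
    have : 0 < (a + b + c) * ((b + c - a) * (c + a - b) * (a + b - c)) := by linarith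
    exact (pos_iff_pos_of_mul_pos this).mp hsum
  have t1 : 0 < b + c - a := by
    by_contra hcon
    rw [not_lt] at hcon
    have p2 : 0 < c + a - b := by linarith
    have p3 : 0 < a + b - c := by linarith
    have : (b + c - a) * (c + a - b) * (a + b - c) ≤ 0 := by
      apply mul_nonpos_of_nonpos_of_nonneg _ p3.le
      exact mul_nonpos_of_nonpos_of_nonneg hcon p2.le
    linarith
  have t2 : 0 < c + a - b := by
    by_contra hcon
    rw [not_lt] at hcon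
    have p3 : 0 < a + b - c := by linarith
    have : (b + c - a) * (c + a - b) * (a + b - c) ≤ 0 := by
      apply mul_nonpos_of_nonpos_of_nonneg _ p3.le
      exact mul_nonpos_of_nonneg_of_nonpos t1.le hcon
    linarith
  have t3 : 0 < a + b - c := by
    by_contra hcon
    rw [not_lt] at hcon
    have : (b + c - a) * (c + a - b) * (a + b - c) ≤ 0 := by
      apply mul_nonpos_of_nonneg_of_nonpos _ hcon
      positivity
    linarith
  have hq := quartic_pos (δ := n / 4) (S0 := (s1 + s2 + s3 + s4) / 2) (S1 := (s1 + s2 - s3 - s4) / 2)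
    (S2 := (s1 - s2 + s3 - s4) / 2) (S3 := (s1 - s2 - s3 + s4) / 2) ha hb hc t1 t2 t3
    (by linear_combination hn2) (by
      have : (a + b + c) * ((s1 + s2 + s3 + s4) / 2) ^ 2 + (a - b - c) * ((s1 + s2 - s3 - s4) / 2) ^ 2
        + (b - a - c) * ((s1 - s2 + s3 - s4) / 2) ^ 2
        + (c - a - b) * ((s1 - s2 - s3 + s4) / 2) ^ 2 = n := by rw [hn1]; ring
      rw [this]; exact hn)
  -- multiply `heq` by the product of the `s i`
  have e : n = 3 * n * (s1 * s2 * s3 * s4)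
      + 2 * ((a * s2 + b * s3 + c * s4) * (s2 * s3 * s4) + (a * s1 + b * s4 + c * s3) * (s1 * s3 * s4)
        + (a * s4 + b * s1 + c * s2) * (s1 * s2 * s4)
        + (a * s3 + b * s2 + c * s1) * (s1 * s2 * s3)) := by
    obtain ⟨r1, hr1⟩ : ∃ r, r = 1 / s1 := ⟨_, rfl⟩
    obtain ⟨r2, hr2⟩ : ∃ r, r = 1 / s2 := ⟨_, rfl⟩
    obtain ⟨r3, hr3⟩ : ∃ r, r = 1 / s3 := ⟨_, rfl⟩
    obtain ⟨r4, hr4⟩ : ∃ r, r = 1 / s4 := ⟨_, rfl⟩
    have h5 : s1 * r1 = 1 := by rw [hr1]; field_simp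
    have h6 : s2 * r2 = 1 := by rw [hr2]; field_simp
    have h7 : s3 * r3 = 1 := by rw [hr3]; field_simp
    have h8 : s4 * r4 = 1 := by rw [hr4]; field_simp
    rw [← hr1, ← hr2, ← hr3, ← hr4] at heq
    have g1 : s1 * (s1 + r1) = s1 ^ 2 + 1 := by linear_combination h5
    have g2 : s2 * (s2 + r2) = s2 ^ 2 + 1 := by linear_combination h6
    have g3 : s3 * (s3 + r3) = s3 ^ 2 + 1 := by linear_combination h7
    have g4 : s4 * (s4 + r4) = s4 ^ 2 + 1 := by linear_combination h8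
    have heq2 : a * ((s1 ^ 2 + 1) * (s2 ^ 2 + 1) * (s3 * s4) + (s3 ^ 2 + 1) * (s4 ^ 2 + 1) * (s1 * s2))
        + b * ((s1 ^ 2 + 1) * (s3 ^ 2 + 1) * (s2 * s4) + (s2 ^ 2 + 1) * (s4 ^ 2 + 1) * (s1 * s3))
        + c * ((s1 ^ 2 + 1) * (s4 ^ 2 + 1) * (s2 * s3) + (s2 ^ 2 + 1) * (s3 ^ 2 + 1) * (s1 * s4))
      = 2 * ((a * s2 + b * s3 + c * s4) * ((s1 ^ 2 + 1) * (s2 * s3 * s4))
        + (a * s1 + b * s4 + c * s3) * ((s2 ^ 2 + 1) * (s1 * s3 * s4))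
        + (a * s4 + b * s1 + c * s2) * ((s3 ^ 2 + 1) * (s1 * s2 * s4))
        + (a * s3 + b * s2 + c * s1) * ((s4 ^ 2 + 1) * (s1 * s2 * s3))) := by
      rw [← g1, ← g2, ← g3, ← g4]
      linear_combination (s1 * s2 * s3 * s4) * heq
    rw [hn1]
    linear_combination 2 * heq2
  have : ((a + b + c) * ((s1 + s2 + s3 + s4) / 2) ^ 2 + (a - b - c) * ((s1 + s2 - s3 - s4) / 2) ^ 2
        + (b - a - c) * ((s1 - s2 + s3 - s4) / 2) ^ 2
        + (c - a - b) * ((s1 - s2 - s3 + s4) / 2) ^ 2 + n / 4 * (((s1 + s2 + s3 + s4) / 2) ^ 2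
        + ((s1 + s2 - s3 - s4) / 2) ^ 2 + ((s1 - s2 + s3 - s4) / 2) ^ 2
        + ((s1 - s2 - s3 + s4) / 2) ^ 2)) ^ 2
      - 4 * (n / 4) * ((a + b + c) * (((s1 + s2 + s3 + s4) / 2) ^ 2) ^ 2
        + (a - b - c) * (((s1 + s2 - s3 - s4) / 2) ^ 2) ^ 2
        + (b - a - c) * (((s1 - s2 + s3 - s4) / 2) ^ 2) ^ 2
        + (c - a - b) * (((s1 - s2 - s3 + s4) / 2) ^ 2) ^ 2)
      + 2 * (n / 4) ^ 2 * ((((s1 + s2 + s3 + s4) / 2) ^ 2 + ((s1 + s2 - s3 - s4) / 2) ^ 2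
        + ((s1 - s2 + s3 - s4) / 2) ^ 2 + ((s1 - s2 - s3 + s4) / 2) ^ 2) ^ 2
        - 3 * ((((s1 + s2 + s3 + s4) / 2) ^ 2) ^ 2 + (((s1 + s2 - s3 - s4) / 2) ^ 2) ^ 2
          + (((s1 - s2 + s3 - s4) / 2) ^ 2) ^ 2 + (((s1 - s2 - s3 + s4) / 2) ^ 2) ^ 2)
        - 12 * ((s1 + s2 + s3 + s4) / 2 * ((s1 + s2 - s3 - s4) / 2) * ((s1 - s2 + s3 - s4) / 2)
          * ((s1 - s2 - s3 + s4) / 2))) = 0 := by
    linear_combination (-(n + 2 * (a * (s1 * s2 + s3 * s4) + b * (s1 * s3 + s2 * s4)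
      + c * (s1 * s4 + s2 * s3)))) * hn1 + n * e
  linarith

end Pool.Agent.K6.H22.Mae
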