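import Mathlib
import Pool.Agent.K6.H22.MaeCore

set_option autoImplicit false

namespace Pool.Agent.K6.H22.Mae

/-- dot product -/
def dt (u v : Fin 3 → ℝ) : ℝ := u 0 * v 0 + u 1 * v 1 + u 2 * v 2

/-- determinant -/
def D3 (u v w : Fin 3 → ℝ) : ℝ :=
  u 0 * (v 1 * w 2 - v 2 * w 1) + u 1 * (v 2 * w 0 - v 0 * w 2) + u 2 * (v 0 * w 1 - v 1 * w 0)

/-- `u × v + v × w + w × u` -/
def nu (u v w : Fin 3 → ℝ) : Fin 3 → ℝ :=
  ![(u 1 * v 2 - u 2 * v 1) + (v 1 * w 2 - v 2 * w 1) + (w 1 * u 2 - w 2 * u 1),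
    (u 2 * v 0 - u 0 * v 2) + (v 2 * w 0 - v 0 * w 2) + (w 2 * u 0 - w 0 * u 2),
    (u 0 * v 1 - u 1 * v 0) + (v 0 * w 1 - v 1 * w 0) + (w 0 * u 1 - w 1 * u 0)]

theorem dt_comm (u v : Fin 3 → ℝ) : dt u v = dt v u := by unfold dt; ring

theorem D3_sq (u v w : Fin 3 → ℝ) : D3 u v w ^ 2 = dt u u * dt v v * dt w w
    + 2 * dt u v * dt v w * dt w u - dt u u * dt v w ^ 2 - dt v v * dt w u ^ 2
    - dt w w * dt u v ^ 2 := by
  unfold D3 dt; ring

theorem nu_sq (u v w : Fin 3 → ℝ) : dt (nu u v w) (nu u v w) =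
    (dt u u * dt v v - dt u v ^ 2) + (dt v v * dt w w - dt v w ^ 2) + (dt w w * dt u u - dt w u ^ 2)
    + 2 * ((dt u v * dt v w - dt w u * dt v v) + (dt v w * dt w u - dt u v * dt w w)
      + (dt w u * dt u v - dt v w * dt u u)) := by
  unfold nu dt
  simp only [Matrix.cons_val_zero, Matrix.cons_val_one, Matrix.cons_val]
  ring

theorem nu_sq_unit {u v w : Fin 3 → ℝ} (hu : dt u u = 1) (hv : dt v v = 1) (hw : dt w w = 1) :
    dt (nu u v w) (nu u v w) = D3 u v w ^ 2 + 2 * ((1 - dt u v) * (1 - dt v w) * (1 - dt w u)) := by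
  rw [nu_sq, D3_sq, hu, hv, hw]; ring

/-- what the four distances from `p` say about the face `u v w` and the point `x` -/
theorem face {u v w p x : Fin 3 → ℝ} {α Y : ℝ} (hu : dt u u = 1) (hv : dt v v = 1) (hw : dt w w = 1)
    (hY : Y ^ 2 = 2 * ((1 - dt u v) * (1 - dt v w) * (1 - dt w u))) (hY0 : 0 < Y)
    (hα : 4 * α = 1 - dt x x) (hα0 : α ≠ 0)
    (hpu : dt p p - 2 * dt p u + dt u u = 1) (hpv : dt p p - 2 * dt p v + dt v v = 1)
    (hpw : dt p p - 2 * dt p w + dt w w = 1) (hpx : dt p p - 2 * dt p x + dt x x = 1) :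
    D3 u v w ≠ 0 ∧ dt p p ≠ 0 ∧ D3 u v w * (D3 u v w - dt (nu u v w) x) = α * (D3 u v w ^ 2 + Y ^ 2) ∧
      ∀ y, D3 u v w * dt p y = dt p p / 2 * dt (nu u v w) y := by
  obtain ⟨m, hm⟩ : ∃ m, m = dt p p / 2 := ⟨_, rfl⟩
  have hpp : dt p p = 2 * m := by linarith
  have hcr : ∀ y, D3 u v w * dt p y = m * dt (nu u v w) y := by
    intro y
    have e1 : dt p u = m := by linarith
    have e2 : dt p v = m := by linarith
    have e3 : dt p w = m := by linarith
    have : D3 u v w * dt p y = dt p u * ((v 1 * w 2 - v 2 * w 1) * y 0 + (v 2 * w 0 - v 0 * w 2) * y 1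
        + (v 0 * w 1 - v 1 * w 0) * y 2) + dt p v * ((w 1 * u 2 - w 2 * u 1) * y 0
        + (w 2 * u 0 - w 0 * u 2) * y 1 + (w 0 * u 1 - w 1 * u 0) * y 2)
        + dt p w * ((u 1 * v 2 - u 2 * v 1) * y 0 + (u 2 * v 0 - u 0 * v 2) * y 1
        + (u 0 * v 1 - u 1 * v 0) * y 2) := by
      unfold D3 dt; ring
    rw [this, e1, e2, e3]
    unfold nu dt
    simp only [Matrix.cons_val_zero, Matrix.cons_val_one, Matrix.cons_val]
    ring
  have hm0 : m ≠ 0 := by
    intro h0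
    have h1 : dt p p = 0 := by rw [hpp, h0]; ring
    have h2 : p 0 = 0 ∧ p 1 = 0 ∧ p 2 = 0 := by
      unfold dt at h1
      refine ⟨?_, ?_, ?_⟩ <;> nlinarith [mul_self_nonneg (p 0), mul_self_nonneg (p 1),
        mul_self_nonneg (p 2)]
    have h3 : dt p x = 0 := by unfold dt; rw [h2.1, h2.2.1, h2.2.2]; ring
    apply hα0
    linarith
  have hN := nu_sq_unit hu hv hw
  rw [← hY] at hN
  have h1 : 2 * D3 u v w ^ 2 = m * (D3 u v w ^ 2 + Y ^ 2) := by
    have e1 := hcr p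
    have e2 := hcr (nu u v w)
    rw [hpp] at e1
    rw [hN] at e2
    rw [dt_comm (nu u v w) p] at e1
    have : m * (2 * D3 u v w ^ 2) = m * (m * (D3 u v w ^ 2 + Y ^ 2)) := by
      linear_combination D3 u v w * e1 + m * e2
    exact mul_left_cancel₀ hm0 this
  have hD : D3 u v w ≠ 0 := by
    intro h0
    rw [h0] at h1
    have h2 : m * Y ^ 2 = 0 := by linarith
    rcases mul_eq_zero.mp h2 with h | h
    · exact hm0 h
    · exact absurd h (by positivity)
  refine ⟨hD, ?_, ?_, ?_⟩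
  · rw [hpp]; simpa using hm0
  · have h2 : m * (D3 u v w - dt (nu u v w) x) = 2 * α * D3 u v w := by
      have e1 := hcr x
      have e2 : dt p x = m - 2 * α := by linarith
      rw [e2] at e1
      linarith
    have h3 : D3 u v w * (2 * (D3 u v w * (D3 u v w - dt (nu u v w) x)))
        = D3 u v w * (2 * (α * (D3 u v w ^ 2 + Y ^ 2))) := by
      linear_combination (D3 u v w - dt (nu u v w) x) * h1 + (D3 u v w ^ 2 + Y ^ 2) * h2
    have h4 := mul_left_cancel₀ hD h3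
    linarith
  · intro y
    rw [hcr y, hpp]; ring

end Pool.Agent.K6.H22.Mae
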