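import Mathlib
import Pool.Agent.K6.H22.MaeGeom

set_option autoImplicit false

namespace Pool.Agent.K6.H22.Mae

theorem dt_self_pos_of_ne {u v : Fin 3 → ℝ} (hu : dt u u = 1) (hv : dt v v = 1) (huv : u ≠ v) :
    0 < 2 - 2 * dt u v := by
  have h : 2 - 2 * dt u v = (u 0 - v 0) ^ 2 + (u 1 - v 1) ^ 2 + (u 2 - v 2) ^ 2 := by
    unfold dt at hu hv ⊢
    linear_combination (-1) * hu - hv
  rw [h]
  by_contra hcon
  rw [not_lt] at hcon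
  apply huv
  have h0 : u 0 = v 0 := by nlinarith [sq_nonneg (u 0 - v 0), sq_nonneg (u 1 - v 1), sq_nonneg (u 2 - v 2)]
  have h1 : u 1 = v 1 := by nlinarith [sq_nonneg (u 0 - v 0), sq_nonneg (u 1 - v 1), sq_nonneg (u 2 - v 2)]
  have h2 : u 2 = v 2 := by nlinarith [sq_nonneg (u 0 - v 0), sq_nonneg (u 1 - v 1), sq_nonneg (u 2 - v 2)]
  funext i
  fin_cases i
  · exact h0
  · exact h1
  · exact h2

theorem len_exists {u v : Fin 3 → ℝ} (hu : dt u u = 1) (hv : dt v v = 1) (huv : u ≠ v) :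
    ∃ l : ℝ, 0 < l ∧ l ^ 2 = 2 - 2 * dt u v :=
  ⟨Real.sqrt (2 - 2 * dt u v), Real.sqrt_pos.mpr (dt_self_pos_of_ne hu hv huv),
    Real.sq_sqrt (dt_self_pos_of_ne hu hv huv).le⟩

theorem gram_zero (c1 c2 c3 c4 : Fin 3 → ℝ) :
    dt c1 c1 * (dt c2 c2 * dt c3 c3 * dt c4 c4 + 2 * dt c2 c3 * dt c3 c4 * dt c2 c4
        - dt c2 c2 * dt c3 c4 ^ 2 - dt c3 c3 * dt c2 c4 ^ 2 - dt c4 c4 * dt c2 c3 ^ 2)
      - dt c1 c2 ^ 2 * (dt c3 c3 * dt c4 c4 - dt c3 c4 ^ 2)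
      - dt c1 c3 ^ 2 * (dt c2 c2 * dt c4 c4 - dt c2 c4 ^ 2)
      - dt c1 c4 ^ 2 * (dt c2 c2 * dt c3 c3 - dt c2 c3 ^ 2)
      + 2 * (dt c1 c2 * dt c1 c3 * (dt c2 c3 * dt c4 c4 - dt c2 c4 * dt c3 c4)
        + dt c1 c2 * dt c1 c4 * (dt c2 c4 * dt c3 c3 - dt c2 c3 * dt c3 c4)
        + dt c1 c3 * dt c1 c4 * (dt c3 c4 * dt c2 c2 - dt c2 c3 * dt c2 c4)) = 0 := by
  unfold dt
  ring

theorem det_id (c1 c2 c3 c4 : Fin 3 → ℝ) (h1 : dt c1 c1 = 1) (h2 : dt c2 c2 = 1)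
    (h3 : dt c3 c3 = 1) (h4 : dt c4 c4 = 1) :
    (D3 c2 c3 c4 + D3 c1 c4 c3 + D3 c1 c2 c4 + D3 c1 c3 c2) ^ 2 =
      2 * ((1 - dt c1 c2) * (1 - dt c3 c4) * ((1 - dt c1 c3) * (1 - dt c2 c4))
        + (1 - dt c1 c3) * (1 - dt c2 c4) * ((1 - dt c1 c4) * (1 - dt c2 c3))
        + (1 - dt c1 c4) * (1 - dt c2 c3) * ((1 - dt c1 c2) * (1 - dt c3 c4)))
      - (((1 - dt c1 c2) * (1 - dt c3 c4)) ^ 2 + ((1 - dt c1 c3) * (1 - dt c2 c4)) ^ 2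
        + ((1 - dt c1 c4) * (1 - dt c2 c3)) ^ 2) := by
  have e : D3 c2 c3 c4 + D3 c1 c4 c3 + D3 c1 c2 c4 + D3 c1 c3 c2
      = D3 (fun i => c2 i - c1 i) (fun i => c3 i - c1 i) (fun i => c4 i - c1 i) := by
    unfold D3; ring
  rw [e, D3_sq]
  have e22 : dt (fun i => c2 i - c1 i) (fun i => c2 i - c1 i) = 2 - 2 * dt c1 c2 := by
    have : dt (fun i => c2 i - c1 i) (fun i => c2 i - c1 i) = dt c2 c2 - 2 * dt c1 c2 + dt c1 c1 := by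
      unfold dt; ring
    rw [this, h1, h2]; ring
  have e33 : dt (fun i => c3 i - c1 i) (fun i => c3 i - c1 i) = 2 - 2 * dt c1 c3 := by
    have : dt (fun i => c3 i - c1 i) (fun i => c3 i - c1 i) = dt c3 c3 - 2 * dt c1 c3 + dt c1 c1 := by
      unfold dt; ring
    rw [this, h1, h3]; ring
  have e44 : dt (fun i => c4 i - c1 i) (fun i => c4 i - c1 i) = 2 - 2 * dt c1 c4 := by
    have : dt (fun i => c4 i - c1 i) (fun i => c4 i - c1 i) = dt c4 c4 - 2 * dt c1 c4 + dt c1 c1 := by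
      unfold dt; ring
    rw [this, h1, h4]; ring
  have e23 : dt (fun i => c2 i - c1 i) (fun i => c3 i - c1 i) = dt c2 c3 - dt c1 c2 - dt c1 c3 + 1 := by
    have : dt (fun i => c2 i - c1 i) (fun i => c3 i - c1 i)
        = dt c2 c3 - dt c1 c2 - dt c1 c3 + dt c1 c1 := by
      unfold dt; ring
    rw [this, h1]
  have e34 : dt (fun i => c3 i - c1 i) (fun i => c4 i - c1 i) = dt c3 c4 - dt c1 c3 - dt c1 c4 + 1 := by
    have : dt (fun i => c3 i - c1 i) (fun i => c4 i - c1 i)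
        = dt c3 c4 - dt c1 c3 - dt c1 c4 + dt c1 c1 := by
      unfold dt; ring
    rw [this, h1]
  have e42 : dt (fun i => c4 i - c1 i) (fun i => c2 i - c1 i) = dt c2 c4 - dt c1 c2 - dt c1 c4 + 1 := by
    have : dt (fun i => c4 i - c1 i) (fun i => c2 i - c1 i)
        = dt c2 c4 - dt c1 c2 - dt c1 c4 + dt c1 c1 := by
      unfold dt; ring
    rw [this, h1]
  rw [e22, e33, e44, e23, e34, e42]
  have hG := gram_zero c1 c2 c3 c4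
  rw [h1, h2, h3, h4] at hG
  linear_combination hG

/-- No five points: with `p₅ = 0`. -/
theorem assemble {c1 c2 c3 c4 x p1 p2 p3 p4 : Fin 3 → ℝ}
    (h1 : dt c1 c1 = 1) (h2 : dt c2 c2 = 1) (h3 : dt c3 c3 = 1) (h4 : dt c4 c4 = 1)
    (n12 : c1 ≠ c2) (n13 : c1 ≠ c3) (n14 : c1 ≠ c4) (n23 : c2 ≠ c3) (n24 : c2 ≠ c4) (n34 : c3 ≠ c4)
    (hx : dt x x ≠ 1)
    (p12 : dt p1 p1 - 2 * dt p1 c2 + dt c2 c2 = 1) (p13 : dt p1 p1 - 2 * dt p1 c3 + dt c3 c3 = 1)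
    (p14 : dt p1 p1 - 2 * dt p1 c4 + dt c4 c4 = 1) (p1x : dt p1 p1 - 2 * dt p1 x + dt x x = 1)
    (p21 : dt p2 p2 - 2 * dt p2 c1 + dt c1 c1 = 1) (p23 : dt p2 p2 - 2 * dt p2 c3 + dt c3 c3 = 1)
    (p24 : dt p2 p2 - 2 * dt p2 c4 + dt c4 c4 = 1) (p2x : dt p2 p2 - 2 * dt p2 x + dt x x = 1)
    (p31 : dt p3 p3 - 2 * dt p3 c1 + dt c1 c1 = 1) (p32 : dt p3 p3 - 2 * dt p3 c2 + dt c2 c2 = 1)
    (p34 : dt p3 p3 - 2 * dt p3 c4 + dt c4 c4 = 1) (p3x : dt p3 p3 - 2 * dt p3 x + dt x x = 1)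
    (p41 : dt p4 p4 - 2 * dt p4 c1 + dt c1 c1 = 1) (p42 : dt p4 p4 - 2 * dt p4 c2 + dt c2 c2 = 1)
    (p43 : dt p4 p4 - 2 * dt p4 c3 + dt c3 c3 = 1) (p4x : dt p4 p4 - 2 * dt p4 x + dt x x = 1)
    (p11 : dt p1 p1 - 2 * dt p1 c1 + dt c1 c1 ≠ 1) : False := by
  obtain ⟨l12, l12p, l12s⟩ := len_exists h1 h2 n12
  obtain ⟨l13, l13p, l13s⟩ := len_exists h1 h3 n13
  obtain ⟨l14, l14p, l14s⟩ := len_exists h1 h4 n14
  obtain ⟨l23, l23p, l23s⟩ := len_exists h2 h3 n23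
  obtain ⟨l24, l24p, l24s⟩ := len_exists h2 h4 n24
  obtain ⟨l34, l34p, l34s⟩ := len_exists h3 h4 n34
  obtain ⟨α, hα⟩ : ∃ α, α = (1 - dt x x) / 4 := ⟨_, rfl⟩
  have hα4 : 4 * α = 1 - dt x x := by rw [hα]; ring
  have hα0 : α ≠ 0 := by
    intro h0; apply hx; linarith
  -- the faces
  obtain ⟨Y1, hY1⟩ : ∃ Y, Y = l23 * l34 * l24 / 2 := ⟨_, rfl⟩
  obtain ⟨Y2, hY2⟩ : ∃ Y, Y = l13 * l34 * l14 / 2 := ⟨_, rfl⟩
  obtain ⟨Y3, hY3⟩ : ∃ Y, Y = l12 * l24 * l14 / 2 := ⟨_, rfl⟩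
  obtain ⟨Y4, hY4⟩ : ∃ Y, Y = l12 * l23 * l13 / 2 := ⟨_, rfl⟩
  have Y1p : 0 < Y1 := by rw [hY1]; positivity
  have Y2p : 0 < Y2 := by rw [hY2]; positivity
  have Y3p : 0 < Y3 := by rw [hY3]; positivity
  have Y4p : 0 < Y4 := by rw [hY4]; positivity
  have Y1s : Y1 ^ 2 = 2 * ((1 - dt c2 c3) * (1 - dt c3 c4) * (1 - dt c4 c2)) := by
    rw [hY1, dt_comm c4 c2]
    have : (l23 * l34 * l24 / 2) ^ 2 = l23 ^ 2 * l34 ^ 2 * l24 ^ 2 / 4 := by ring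
    rw [this, l23s, l34s, l24s]; ring
  have Y2s : Y2 ^ 2 = 2 * ((1 - dt c1 c4) * (1 - dt c4 c3) * (1 - dt c3 c1)) := by
    rw [hY2, dt_comm c4 c3, dt_comm c3 c1]
    have : (l13 * l34 * l14 / 2) ^ 2 = l13 ^ 2 * l34 ^ 2 * l14 ^ 2 / 4 := by ring
    rw [this, l13s, l34s, l14s]; ring
  have Y3s : Y3 ^ 2 = 2 * ((1 - dt c1 c2) * (1 - dt c2 c4) * (1 - dt c4 c1)) := by
    rw [hY3, dt_comm c4 c1]
    have : (l12 * l24 * l14 / 2) ^ 2 = l12 ^ 2 * l24 ^ 2 * l14 ^ 2 / 4 := by ring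
    rw [this, l12s, l24s, l14s]; ring
  have Y4s : Y4 ^ 2 = 2 * ((1 - dt c1 c3) * (1 - dt c3 c2) * (1 - dt c2 c1)) := by
    rw [hY4, dt_comm c3 c2, dt_comm c2 c1]
    have : (l12 * l23 * l13 / 2) ^ 2 = l12 ^ 2 * l23 ^ 2 * l13 ^ 2 / 4 := by ring
    rw [this, l12s, l23s, l13s]; ring
  obtain ⟨d1, q1, f1, g1⟩ := face h2 h3 h4 Y1s Y1p hα4 hα0 p12 p13 p14 p1x
  obtain ⟨d2, q2, f2, g2⟩ := face h1 h4 h3 Y2s Y2p hα4 hα0 p21 p24 p23 p2x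
  obtain ⟨d3, q3, f3, g3⟩ := face h1 h2 h4 Y3s Y3p hα4 hα0 p31 p32 p34 p3x
  obtain ⟨d4, q4, f4, g4⟩ := face h1 h3 h2 Y4s Y4p hα4 hα0 p41 p43 p42 p4x
  have hdet := det_id c1 c2 c3 c4 h1 h2 h3 h4
  have hnu : ∀ y, dt (nu c2 c3 c4) y + dt (nu c1 c4 c3) y + dt (nu c1 c2 c4) y
      + dt (nu c1 c3 c2) y = 0 := by
    intro y
    unfold nu dt
    simp only [Matrix.cons_val_zero, Matrix.cons_val_one, Matrix.cons_val]
    ring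
  have hcr : ∀ y, D3 c2 c3 c4 * dt c1 y + D3 c1 c4 c3 * dt c2 y + D3 c1 c2 c4 * dt c3 y
      + D3 c1 c3 c2 * dt c4 y = 0 := by
    intro y
    unfold D3 dt
    ring
  have hbar : ∀ z y, (D3 c2 c3 c4 + D3 c1 c4 c3 + D3 c1 c2 c4 + D3 c1 c3 c2) * dt z y
      = (D3 c2 c3 c4 - dt (nu c2 c3 c4) z) * dt c1 y + (D3 c1 c4 c3 - dt (nu c1 c4 c3) z) * dt c2 y
        + (D3 c1 c2 c4 - dt (nu c1 c2 c4) z) * dt c3 y
        + (D3 c1 c3 c2 - dt (nu c1 c3 c2) z) * dt c4 y := by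
    intro z y
    unfold nu D3 dt
    simp only [Matrix.cons_val_zero, Matrix.cons_val_one, Matrix.cons_val]
    ring
  have hS1 : D3 c2 c3 c4 - dt (nu c2 c3 c4) c1
      = D3 c2 c3 c4 + D3 c1 c4 c3 + D3 c1 c2 c4 + D3 c1 c3 c2 := by
    unfold nu D3 dt
    simp only [Matrix.cons_val_zero, Matrix.cons_val_one, Matrix.cons_val]
    ring
  -- abbreviations
  obtain ⟨E1, hE1⟩ : ∃ E, E = D3 c2 c3 c4 := ⟨_, rfl⟩
  obtain ⟨E2, hE2⟩ : ∃ E, E = D3 c1 c4 c3 := ⟨_, rfl⟩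
  obtain ⟨E3, hE3⟩ : ∃ E, E = D3 c1 c2 c4 := ⟨_, rfl⟩
  obtain ⟨E4, hE4⟩ : ∃ E, E = D3 c1 c3 c2 := ⟨_, rfl⟩
  rw [← hE1] at d1 f1 g1
  rw [← hE2] at d2 f2
  rw [← hE3] at d3 f3
  rw [← hE4] at d4 f4
  rw [← hE1, ← hE2, ← hE3, ← hE4] at hdet hS1
  simp only [← hE1, ← hE2, ← hE3, ← hE4] at hcr hbar
  obtain ⟨S, hS⟩ : ∃ S, S = E1 + E2 + E3 + E4 := ⟨_, rfl⟩
  rw [← hS] at hdet hS1
  simp only [← hS] at hbar
  have hS0 : S ≠ 0 := by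
    intro h0
    apply p11
    have e1 := g1 c1
    have e2 : dt (nu c2 c3 c4) c1 = E1 := by linarith
    rw [e2] at e1
    have e3 : E1 * (dt p1 p1 - 2 * dt p1 c1) = E1 * 0 := by linear_combination (-2) * e1
    have e4 := mul_left_cancel₀ d1 e3
    linarith
  -- the numbers s i
  obtain ⟨s1, hs1⟩ : ∃ s, s = E1 / Y1 := ⟨_, rfl⟩
  obtain ⟨s2, hs2⟩ : ∃ s, s = E2 / Y2 := ⟨_, rfl⟩
  obtain ⟨s3, hs3⟩ : ∃ s, s = E3 / Y3 := ⟨_, rfl⟩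
  obtain ⟨s4, hs4⟩ : ∃ s, s = E4 / Y4 := ⟨_, rfl⟩
  have es1 : E1 = Y1 * s1 := by rw [hs1]; field_simp
  have es2 : E2 = Y2 * s2 := by rw [hs2]; field_simp
  have es3 : E3 = Y3 * s3 := by rw [hs3]; field_simp
  have es4 : E4 = Y4 * s4 := by rw [hs4]; field_simp
  have s1n : s1 ≠ 0 := by rw [hs1]; exact div_ne_zero d1 Y1p.ne'
  have s2n : s2 ≠ 0 := by rw [hs2]; exact div_ne_zero d2 Y2p.ne'
  have s3n : s3 ≠ 0 := by rw [hs3]; exact div_ne_zero d3 Y3p.ne'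
  have s4n : s4 ≠ 0 := by rw [hs4]; exact div_ne_zero d4 Y4p.ne'
  have hb : ∀ {E Y s t : ℝ}, E ≠ 0 → E = Y * s → s ≠ 0 → E * (E - t) = α * (E ^ 2 + Y ^ 2) →
      E - t = α * (Y * (s + 1 / s)) := by
    intro E Y s t hE he hs h
    have h1 : E * (E - t) = E * (α * (Y * (s + 1 / s))) := by
      rw [h, he]; field_simp
    exact mul_left_cancel₀ hE h1
  have b1 := hb d1 es1 s1n f1
  have b2 := hb d2 es2 s2n f2
  have b3 := hb d3 es3 s3n f3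
  have b4 := hb d4 es4 s4n f4
  obtain ⟨r1, hr1⟩ : ∃ r, r = s1 + 1 / s1 := ⟨_, rfl⟩
  obtain ⟨r2, hr2⟩ : ∃ r, r = s2 + 1 / s2 := ⟨_, rfl⟩
  obtain ⟨r3, hr3⟩ : ∃ r, r = s3 + 1 / s3 := ⟨_, rfl⟩
  obtain ⟨r4, hr4⟩ : ∃ r, r = s4 + 1 / s4 := ⟨_, rfl⟩
  rw [← hr1] at b1
  rw [← hr2] at b2
  rw [← hr3] at b3
  rw [← hr4] at b4
  -- (a)
  have ha : S = α * (Y1 * r1 + Y2 * r2 + Y3 * r3 + Y4 * r4) := by
    have := hnu x
    rw [hS]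
    linear_combination b1 + b2 + b3 + b4 + this
  -- (c)
  have hbar' : ∀ y, S * dt x y = α * (Y1 * r1 * dt c1 y + Y2 * r2 * dt c2 y + Y3 * r3 * dt c3 y
      + Y4 * r4 * dt c4 y) := by
    intro y
    rw [hbar x y, b1, b2, b3, b4]; ring
  have hc : S ^ 2 * (4 * α) = α ^ 2 * (Y1 * r1 * (Y2 * r2) * l12 ^ 2 + Y1 * r1 * (Y3 * r3) * l13 ^ 2
      + Y1 * r1 * (Y4 * r4) * l14 ^ 2 + Y2 * r2 * (Y3 * r3) * l23 ^ 2
      + Y2 * r2 * (Y4 * r4) * l24 ^ 2 + Y3 * r3 * (Y4 * r4) * l34 ^ 2) := by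
    have k0 := hbar' x
    have k1 := hbar' c1
    have k2 := hbar' c2
    have k3 := hbar' c3
    have k4 := hbar' c4
    rw [dt_comm c1 x, dt_comm c2 x, dt_comm c3 x, dt_comm c4 x] at k0
    rw [h1, dt_comm c2 c1, dt_comm c3 c1, dt_comm c4 c1] at k1
    rw [h2, dt_comm c3 c2, dt_comm c4 c2] at k2
    rw [h3, dt_comm c4 c3] at k3
    rw [h4] at k4
    rw [l12s, l13s, l14s, l23s, l24s, l34s, hα4]
    linear_combination (-S) * k0 - α * (Y1 * r1) * k1 - α * (Y2 * r2) * k2 - α * (Y3 * r3) * k3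
      - α * (Y4 * r4) * k4 + (S + α * (Y1 * r1 + Y2 * r2 + Y3 * r3 + Y4 * r4)) * ha
  have hd : 4 * S * (Y1 * r1 + Y2 * r2 + Y3 * r3 + Y4 * r4)
      = Y1 * r1 * (Y2 * r2) * l12 ^ 2 + Y1 * r1 * (Y3 * r3) * l13 ^ 2
      + Y1 * r1 * (Y4 * r4) * l14 ^ 2 + Y2 * r2 * (Y3 * r3) * l23 ^ 2
      + Y2 * r2 * (Y4 * r4) * l24 ^ 2 + Y3 * r3 * (Y4 * r4) * l34 ^ 2 := by
    have hα2 : α ^ 2 ≠ 0 := pow_ne_zero 2 hα0
    apply mul_left_cancel₀ hα2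
    rw [← hc]
    linear_combination (-4 * S * α) * ha
  -- (R1)
  have R1 : l12 ^ 2 * E2 + l13 ^ 2 * E3 + l14 ^ 2 * E4 = 2 * S := by
    have := hcr c1
    rw [h1, dt_comm c2 c1, dt_comm c3 c1, dt_comm c4 c1] at this
    rw [l12s, l13s, l14s, hS]
    linear_combination (-2) * this
  have R2 : l12 ^ 2 * E1 + l23 ^ 2 * E3 + l24 ^ 2 * E4 = 2 * S := by
    have := hcr c2
    rw [h2, dt_comm c3 c2, dt_comm c4 c2] at this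
    rw [l12s, l23s, l24s, hS]
    linear_combination (-2) * this
  have R3 : l13 ^ 2 * E1 + l23 ^ 2 * E2 + l34 ^ 2 * E4 = 2 * S := by
    have := hcr c3
    rw [h3, dt_comm c4 c3] at this
    rw [l13s, l23s, l34s, hS]
    linear_combination (-2) * this
  have R4 : l14 ^ 2 * E1 + l24 ^ 2 * E2 + l34 ^ 2 * E3 = 2 * S := by
    have := hcr c4
    rw [h4] at this
    rw [l14s, l24s, l34s, hS]
    linear_combination (-2) * this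
  obtain ⟨a, hadef⟩ : ∃ a, a = l12 * l34 := ⟨_, rfl⟩
  obtain ⟨b, hbdef⟩ : ∃ b, b = l13 * l24 := ⟨_, rfl⟩
  obtain ⟨c, hcdef⟩ : ∃ c, c = l14 * l23 := ⟨_, rfl⟩
  have ap : 0 < a := by rw [hadef]; positivity
  have bp : 0 < b := by rw [hbdef]; positivity
  have cp : 0 < c := by rw [hcdef]; positivity
  obtain ⟨M, hM⟩ : ∃ M, M = a * b * c / 4 := ⟨_, rfl⟩
  have Mp : 0 < M := by rw [hM]; positivity
  have m12 : Y1 * Y2 * l12 ^ 2 = a * M := by rw [hY1, hY2, hM, hadef, hbdef, hcdef]; ring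
  have m34 : Y3 * Y4 * l34 ^ 2 = a * M := by rw [hY3, hY4, hM, hadef, hbdef, hcdef]; ring
  have m13 : Y1 * Y3 * l13 ^ 2 = b * M := by rw [hY1, hY3, hM, hadef, hbdef, hcdef]; ring
  have m24 : Y2 * Y4 * l24 ^ 2 = b * M := by rw [hY2, hY4, hM, hadef, hbdef, hcdef]; ring
  have m14 : Y1 * Y4 * l14 ^ 2 = c * M := by rw [hY1, hY4, hM, hadef, hbdef, hcdef]; ring
  have m23 : Y2 * Y3 * l23 ^ 2 = c * M := by rw [hY2, hY3, hM, hadef, hbdef, hcdef]; ring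
  have T1 : M * (a * s2 + b * s3 + c * s4) = 2 * S * Y1 := by
    linear_combination Y1 * R1 - s2 * m12 - s3 * m13 - s4 * m14 - Y1 * l12 ^ 2 * es2
      - Y1 * l13 ^ 2 * es3 - Y1 * l14 ^ 2 * es4
  have T2 : M * (a * s1 + b * s4 + c * s3) = 2 * S * Y2 := by
    linear_combination Y2 * R2 - s1 * m12 - s4 * m24 - s3 * m23 - Y2 * l12 ^ 2 * es1
      - Y2 * l23 ^ 2 * es3 - Y2 * l24 ^ 2 * es4
  have T3 : M * (a * s4 + b * s1 + c * s2) = 2 * S * Y3 := by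
    linear_combination Y3 * R3 - s1 * m13 - s4 * m34 - s2 * m23 - Y3 * l13 ^ 2 * es1
      - Y3 * l23 ^ 2 * es2 - Y3 * l34 ^ 2 * es4
  have T4 : M * (a * s3 + b * s2 + c * s1) = 2 * S * Y4 := by
    linear_combination Y4 * R4 - s1 * m14 - s2 * m24 - s3 * m34 - Y4 * l14 ^ 2 * es1
      - Y4 * l24 ^ 2 * es2 - Y4 * l34 ^ 2 * es3
  have hMn : M * (2 * (a * (s1 * s2 + s3 * s4) + b * (s1 * s3 + s2 * s4)
      + c * (s1 * s4 + s2 * s3))) = 2 * S ^ 2 := by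
    linear_combination s1 * T1 + s2 * T2 + s3 * T3 + s4 * T4 - 2 * S * es1 - 2 * S * es2
      - 2 * S * es3 - 2 * S * es4 - 2 * S * hS
  have hS2 : 16 * S ^ 2 = (a + b + c) * (b + c - a) * (c + a - b) * (a + b - c) := by
    have ea : a ^ 2 = 4 * ((1 - dt c1 c2) * (1 - dt c3 c4)) := by
      rw [hadef]
      have : (l12 * l34) ^ 2 = l12 ^ 2 * l34 ^ 2 := by ring
      rw [this, l12s, l34s]; ring
    have eb : b ^ 2 = 4 * ((1 - dt c1 c3) * (1 - dt c2 c4)) := by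
      rw [hbdef]
      have : (l13 * l24) ^ 2 = l13 ^ 2 * l24 ^ 2 := by ring
      rw [this, l13s, l24s]; ring
    have ec : c ^ 2 = 4 * ((1 - dt c1 c4) * (1 - dt c2 c3)) := by
      rw [hcdef]
      have : (l14 * l23) ^ 2 = l14 ^ 2 * l23 ^ 2 := by ring
      rw [this, l14s, l23s]; ring
    have e0 : (a + b + c) * (b + c - a) * (c + a - b) * (a + b - c)
        = 2 * (a ^ 2 * b ^ 2 + b ^ 2 * c ^ 2 + c ^ 2 * a ^ 2)
          - ((a ^ 2) ^ 2 + (b ^ 2) ^ 2 + (c ^ 2) ^ 2) := by ring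
    rw [e0, ea, eb, ec, hdet]; ring
  refine core (n := 2 * (a * (s1 * s2 + s3 * s4) + b * (s1 * s3 + s2 * s4) + c * (s1 * s4 + s2 * s3)))
    ap bp cp ?_ rfl ?_ s1n s2n s3n s4n ?_
  · have : 0 < 2 * S ^ 2 := by positivity
    rw [← hMn] at this
    exact (pos_iff_pos_of_mul_pos this).mp Mp
  · rw [← hS2]
    have : 2 * a * b * c = 8 * M := by rw [hM]; ring
    rw [this]
    linear_combination 8 * hMn
  · rw [← hr1, ← hr2, ← hr3, ← hr4]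
    apply mul_left_cancel₀ Mp.ne'
    linear_combination (-1) * hd - r1 * r2 * m12 - r3 * r4 * m34 - r1 * r3 * m13 - r2 * r4 * m24
      - r1 * r4 * m14 - r2 * r3 * m23 - 2 * r1 * T1 - 2 * r2 * T2 - 2 * r3 * T3 - 2 * r4 * T4

end Pool.Agent.K6.H22.Mae
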