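import Mathlib
import Pool.Agent.K6.H22.MaeFive

set_option autoImplicit false

namespace Pool.Agent.K6.H22.Mae

abbrev E3 := EuclideanSpace ℝ (Fin 3)

/-- difference of two points, as a function -/
def df (p c : E3) : Fin 3 → ℝ := fun i => p i - c i

theorem sph_iff (p c : E3) : p ∈ Metric.sphere c 1 ↔ dt (df p c) (df p c) = 1 := by
  rw [Metric.mem_sphere, EuclideanSpace.dist_eq, Fin.sum_univ_three]
  simp only [Real.dist_eq, sq_abs]
  rw [Real.sqrt_eq_one]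
  unfold dt df
  constructor <;> intro h <;> linarith

theorem df_ne {p c d : E3} (h : c ≠ d) : df c p ≠ df d p := by
  intro he
  apply h
  ext i
  have := congrFun he i
  unfold df at this
  linarith

theorem df_expand (p c o : E3) : dt (df p c) (df p c)
    = dt (df p o) (df p o) - 2 * dt (df p o) (df c o) + dt (df c o) (df c o) := by
  unfold dt df
  ring

/-- Five unit spheres. -/
theorem five {c1 c2 c3 c4 c5 p1 p2 p3 p4 p5 : E3}
    (n12 : c1 ≠ c2) (n13 : c1 ≠ c3) (n14 : c1 ≠ c4) (n23 : c2 ≠ c3) (n24 : c2 ≠ c4) (n34 : c3 ≠ c4)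
    (a2 : p1 ∈ Metric.sphere c2 1) (a3 : p1 ∈ Metric.sphere c3 1) (a4 : p1 ∈ Metric.sphere c4 1)
    (a5 : p1 ∈ Metric.sphere c5 1)
    (b1 : p2 ∈ Metric.sphere c1 1) (b3 : p2 ∈ Metric.sphere c3 1) (b4 : p2 ∈ Metric.sphere c4 1)
    (b5 : p2 ∈ Metric.sphere c5 1)
    (d1 : p3 ∈ Metric.sphere c1 1) (d2 : p3 ∈ Metric.sphere c2 1) (d4 : p3 ∈ Metric.sphere c4 1)
    (d5 : p3 ∈ Metric.sphere c5 1)
    (e1 : p4 ∈ Metric.sphere c1 1) (e2 : p4 ∈ Metric.sphere c2 1) (e3 : p4 ∈ Metric.sphere c3 1)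
    (e5 : p4 ∈ Metric.sphere c5 1)
    (f1 : p5 ∈ Metric.sphere c1 1) (f2 : p5 ∈ Metric.sphere c2 1) (f3 : p5 ∈ Metric.sphere c3 1)
    (f4 : p5 ∈ Metric.sphere c4 1) :
    p1 ∈ Metric.sphere c1 1 ∨ p5 ∈ Metric.sphere c5 1 := by
  by_contra hcon
  push Not at hcon
  obtain ⟨g1, g5⟩ := hcon
  rw [sph_iff] at *
  rw [df_expand _ _ p5] at g1
  have hsymm : ∀ c : E3, dt (df c p5) (df c p5) = dt (df p5 c) (df p5 c) := by
    intro c; unfold dt df; ring
  rw [← hsymm] at f1 f2 f3 f4 g5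
  rw [df_expand _ _ p5] at a2 a3 a4 a5 b1 b3 b4 b5 d1 d2 d4 d5 e1 e2 e3 e5
  exact assemble f1 f2 f3 f4 (df_ne n12) (df_ne n13) (df_ne n14) (df_ne n23) (df_ne n24)
    (df_ne n34) g5 a2 a3 a4 a5 b1 b3 b4 b5 d1 d2 d4 d5 e1 e2 e3 e5 g1

theorem dt_zero {u : Fin 3 → ℝ} (h : dt u u = 0) : u 0 = 0 ∧ u 1 = 0 ∧ u 2 = 0 := by
  unfold dt at h
  refine ⟨?_, ?_, ?_⟩ <;> nlinarith [mul_self_nonneg (u 0), mul_self_nonneg (u 1),
    mul_self_nonneg (u 2)]

theorem para {u v w : Fin 3 → ℝ} (huv : dt u u * dt v v = dt u v ^ 2) (hv : dt v v ≠ 0)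
    (hu : dt u u ≠ 0) (h1 : 2 * dt w u + dt u u = 0) (h2 : 2 * dt w v + dt v v = 0) :
    dt (fun i => u i - v i) (fun i => u i - v i) = 0 := by
  have k : dt (fun i => dt v v * u i - dt u v * v i) (fun i => dt v v * u i - dt u v * v i) = 0 := by
    have : dt (fun i => dt v v * u i - dt u v * v i) (fun i => dt v v * u i - dt u v * v i)
        = dt v v * (dt u u * dt v v - dt u v ^ 2) := by
      unfold dt; ring
    rw [this, huv]; ring
  obtain ⟨k0, k1, k2⟩ := dt_zero k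
  have k3 : dt v v * dt w u = dt u v * dt w v := by
    have : dt v v * dt w u - dt u v * dt w v = w 0 * (dt v v * u 0 - dt u v * v 0)
        + w 1 * (dt v v * u 1 - dt u v * v 1) + w 2 * (dt v v * u 2 - dt u v * v 2) := by
      have e1 : dt w u = w 0 * u 0 + w 1 * u 1 + w 2 * u 2 := rfl
      have e2 : dt w v = w 0 * v 0 + w 1 * v 1 + w 2 * v 2 := rfl
      rw [e1, e2]; ring
    rw [k0, k1, k2] at this
    linarith
  have k4 : dt v v * (dt u u - dt u v) = 0 := by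
    linear_combination dt v v * h1 - dt u v * h2 - 2 * k3
  have k5 : dt u u = dt u v := by
    rcases mul_eq_zero.mp k4 with h | h
    · exact absurd h hv
    · linarith
  have k6 : dt v v = dt u v := by
    rw [k5] at huv hu
    have : dt u v * (dt v v - dt u v) = 0 := by linear_combination huv
    rcases mul_eq_zero.mp this with h | h
    · exact absurd h hu
    · linarith
  have : dt (fun i => u i - v i) (fun i => u i - v i) = dt u u - 2 * dt u v + dt v v := by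
    unfold dt; ring
  rw [this, k5, k6]; ring

theorem dt_df_ne {p q : E3} (h : p ≠ q) : dt (df p q) (df p q) ≠ 0 := by
  intro h0
  obtain ⟨e0, e1, e2⟩ := dt_zero h0
  unfold df at e0 e1 e2
  apply h
  ext i
  fin_cases i
  · simp only [Fin.zero_eta]; linarith
  · simp only [Fin.mk_one]; linarith
  · simp only [Fin.reduceFinMk]; linarith

/-- No unit-distance `K₃₃` in space. -/
theorem no_K33 {c1 c2 c3 p q r : E3} (n12 : c1 ≠ c2) (n13 : c1 ≠ c3) (n23 : c2 ≠ c3)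
    (npq : p ≠ q) (npr : p ≠ r) (nqr : q ≠ r)
    (p1 : p ∈ Metric.sphere c1 1) (p2 : p ∈ Metric.sphere c2 1) (p3 : p ∈ Metric.sphere c3 1)
    (q1 : q ∈ Metric.sphere c1 1) (q2 : q ∈ Metric.sphere c2 1) (q3 : q ∈ Metric.sphere c3 1)
    (r1 : r ∈ Metric.sphere c1 1) (r2 : r ∈ Metric.sphere c2 1) (r3 : r ∈ Metric.sphere c3 1) :
    False := by
  rw [sph_iff] at *
  have o1 : dt (df q p) (df c2 c1) = 0 := by
    have : 2 * dt (df q p) (df c2 c1) = (dt (df q c1) (df q c1) - dt (df q c2) (df q c2))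
      - (dt (df p c1) (df p c1) - dt (df p c2) (df p c2)) := by unfold dt df; ring
    rw [p1, p2, q1, q2] at this; linarith
  have o2 : dt (df q p) (df c3 c1) = 0 := by
    have : 2 * dt (df q p) (df c3 c1) = (dt (df q c1) (df q c1) - dt (df q c3) (df q c3))
      - (dt (df p c1) (df p c1) - dt (df p c3) (df p c3)) := by unfold dt df; ring
    rw [p1, p3, q1, q3] at this; linarith
  have o3 : dt (df r p) (df c2 c1) = 0 := by
    have : 2 * dt (df r p) (df c2 c1) = (dt (df r c1) (df r c1) - dt (df r c2) (df r c2))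
      - (dt (df p c1) (df p c1) - dt (df p c2) (df p c2)) := by unfold dt df; ring
    rw [p1, p2, r1, r2] at this; linarith
  have o4 : dt (df r p) (df c3 c1) = 0 := by
    have : 2 * dt (df r p) (df c3 c1) = (dt (df r c1) (df r c1) - dt (df r c3) (df r c3))
      - (dt (df p c1) (df p c1) - dt (df p c3) (df p c3)) := by unfold dt df; ring
    rw [p1, p3, r1, r3] at this; linarith
  have hG := gram_zero (df q p) (df r p) (df c2 c1) (df c3 c1)
  rw [o1, o2, o3, o4] at hG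
  have hG' : (dt (df q p) (df q p) * dt (df r p) (df r p) - dt (df q p) (df r p) ^ 2)
      * (dt (df c2 c1) (df c2 c1) * dt (df c3 c1) (df c3 c1) - dt (df c2 c1) (df c3 c1) ^ 2) = 0 := by
    linear_combination hG
  rcases mul_eq_zero.mp hG' with h | h
  · have := para (u := df q p) (v := df r p) (w := df p c1) (by linarith)
      (dt_df_ne npr.symm) (dt_df_ne npq.symm)
      (by
        have : 2 * dt (df p c1) (df q p) + dt (df q p) (df q p)
          = dt (df q c1) (df q c1) - dt (df p c1) (df p c1) := by unfold dt df; ring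
        rw [this, q1, p1]; ring)
      (by
        have : 2 * dt (df p c1) (df r p) + dt (df r p) (df r p)
          = dt (df r c1) (df r c1) - dt (df p c1) (df p c1) := by unfold dt df; ring
        rw [this, r1, p1]; ring)
    apply dt_df_ne nqr
    have e : (fun i => df q p i - df r p i) = df q r := by
      funext i; unfold df; ring
    rw [e] at this
    exact this
  · have := para (u := df c2 c1) (v := df c3 c1) (w := df c1 p) (by linarith)
      (dt_df_ne n13.symm) (dt_df_ne n12.symm)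
      (by
        have : 2 * dt (df c1 p) (df c2 c1) + dt (df c2 c1) (df c2 c1)
          = dt (df p c2) (df p c2) - dt (df p c1) (df p c1) := by unfold dt df; ring
        rw [this, p2, p1]; ring)
      (by
        have : 2 * dt (df c1 p) (df c3 c1) + dt (df c3 c1) (df c3 c1)
          = dt (df p c3) (df p c3) - dt (df p c1) (df p c1) := by unfold dt df; ring
        rw [this, p3, p1]; ring)
    apply dt_df_ne n23
    have e : (fun i => df c2 c1 i - df c3 c1 i) = df c2 c3 := by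
      funext i; unfold df; ring
    rw [e] at this
    exact this

theorem encard_four {c1 c2 c3 c4 : E3} (n12 : c1 ≠ c2) (n13 : c1 ≠ c3) (n14 : c1 ≠ c4)
    (n23 : c2 ≠ c3) (n24 : c2 ≠ c4) (n34 : c3 ≠ c4) : ({c1, c2, c3, c4} : Set E3).encard = 4 := by
  rw [Set.encard_insert_of_notMem (by simp [n12, n13, n14]),
    Set.encard_insert_of_notMem (by simp [n23, n24]), Set.encard_pair n34]
  norm_num

/-- Maehara's conjecture in dimension three. -/
theorem main : ∀ S : Set (EuclideanSpace ℝ (Fin 3)),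
      5 ≤ S.encard →
      (∀ T : Set (EuclideanSpace ℝ (Fin 3)), T ⊆ S → T.encard = 4 →
        ∃ p : EuclideanSpace ℝ (Fin 3), ∀ c ∈ T, p ∈ Metric.sphere c 1) →
      ∃ p : EuclideanSpace ℝ (Fin 3), ∀ c ∈ S, p ∈ Metric.sphere c 1 := by
  intro S hS h4
  -- the four-sphere property in a convenient form
  have h4' : ∀ c1 c2 c3 c4 : E3, c1 ∈ S → c2 ∈ S → c3 ∈ S → c4 ∈ S → c1 ≠ c2 → c1 ≠ c3 → c1 ≠ c4 →
      c2 ≠ c3 → c2 ≠ c4 → c3 ≠ c4 → ∃ p : E3, p ∈ Metric.sphere c1 1 ∧ p ∈ Metric.sphere c2 1 ∧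
        p ∈ Metric.sphere c3 1 ∧ p ∈ Metric.sphere c4 1 := by
    intro c1 c2 c3 c4 m1 m2 m3 m4 n12 n13 n14 n23 n24 n34
    obtain ⟨p, hp⟩ := h4 {c1, c2, c3, c4} (by
      intro y hy
      simp only [Set.mem_insert_iff, Set.mem_singleton_iff] at hy
      rcases hy with rfl | rfl | rfl | rfl <;> assumption) (encard_four n12 n13 n14 n23 n24 n34)
    exact ⟨p, hp _ (by simp), hp _ (by simp), hp _ (by simp), hp _ (by simp)⟩
  by_contra hcon
  push Not at hcon
  -- choose four points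
  obtain ⟨T, hTS, hT⟩ := Set.exists_subset_encard_eq (s := S) (k := 4)
    (le_trans (by norm_num) hS)
  obtain ⟨p, hp⟩ := h4 T hTS hT
  obtain ⟨c1, c2, c3, n12, n13, n23, h3⟩ : ∃ c1 c2 c3 : E3, c1 ≠ c2 ∧ c1 ≠ c3 ∧ c2 ≠ c3 ∧
      ({c1, c2, c3} : Set E3) ⊆ T := by
    obtain ⟨T', hT'T, hT'⟩ := Set.exists_subset_encard_eq (s := T) (k := 3)
      (by rw [hT]; norm_num)
    obtain ⟨x, y, z, hxy, hxz, hyz, he⟩ := Set.encard_eq_three.mp hT'
    exact ⟨x, y, z, hxy, hxz, hyz, he ▸ hT'T⟩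
  have t1 : c1 ∈ T := h3 (by simp)
  have t2 : c2 ∈ T := h3 (by simp)
  have t3 : c3 ∈ T := h3 (by simp)
  obtain ⟨s, hsS, hs⟩ := hcon p
  have ns1 : c1 ≠ s := fun h => hs (h ▸ hp c1 t1)
  have ns2 : c2 ≠ s := fun h => hs (h ▸ hp c2 t2)
  have ns3 : c3 ≠ s := fun h => hs (h ▸ hp c3 t3)
  obtain ⟨q, q1, q2, q3, q4⟩ := h4' c1 c2 c3 s (hTS t1) (hTS t2) (hTS t3) hsS n12 n13 ns1 n23 ns2 ns3
  obtain ⟨s', hsS', hs'⟩ := hcon q
  have m1 : c1 ≠ s' := fun h => hs' (h ▸ q1)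
  have m2 : c2 ≠ s' := fun h => hs' (h ▸ q2)
  have m3 : c3 ≠ s' := fun h => hs' (h ▸ q3)
  have m4 : s ≠ s' := fun h => hs' (h ▸ q4)
  -- the five spheres
  obtain ⟨p1, a2, a3, a4, a5⟩ := h4' c2 c3 s s' (hTS t2) (hTS t3) hsS hsS' n23 ns2 m2 ns3 m3 m4
  obtain ⟨p2, b1, b3, b4, b5⟩ := h4' c1 c3 s s' (hTS t1) (hTS t3) hsS hsS' n13 ns1 m1 ns3 m3 m4
  obtain ⟨p3, d1, d2, d4, d5⟩ := h4' c1 c2 s s' (hTS t1) (hTS t2) hsS hsS' n12 ns1 m1 ns2 m2 m4
  obtain ⟨p4, e1, e2, e3, e5⟩ := h4' c1 c2 c3 s' (hTS t1) (hTS t2) (hTS t3) hsS' n12 n13 m1 n23 m2 m3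
  have hr : ∃ r : E3, r ∈ Metric.sphere c1 1 ∧ r ∈ Metric.sphere c2 1 ∧ r ∈ Metric.sphere c3 1 ∧
      r ∈ Metric.sphere s 1 ∧ r ∈ Metric.sphere s' 1 := by
    rcases five n12 n13 ns1 n23 ns2 ns3 a2 a3 a4 a5 b1 b3 b4 b5 d1 d2 d4 d5 e1 e2 e3 e5 q1 q2 q3 q4
      with h | h
    · exact ⟨p1, h, a2, a3, a4, a5⟩
    · exact ⟨q, q1, q2, q3, q4, h⟩
  obtain ⟨r, r1, r2, r3, r4, r5⟩ := hr
  refine no_K33 (p := p) (q := q) (r := r) n12 n13 n23 ?_ ?_ ?_ (hp c1 t1) (hp c2 t2) (hp c3 t3)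
    q1 q2 q3 r1 r2 r3
  · rintro rfl; exact hs q4
  · rintro rfl; exact hs r4
  · rintro rfl; exact hs' r5

end Pool.Agent.K6.H22.Mae
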